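import Pool.Agent.R788.FE.Defs

/-!
The body `S` and its faces.
-/

open scoped BigOperators

namespace Pool.Agent.R788.FE

variable {N : ℕ}

/-- bilinear form in the coordinates `k ≥ i` (without the last one). -/
noncomputable def bil (i : ℕ) (X Y : E (N + 1)) : ℝ :=
  ∑ k : Fin N, if i ≤ (k : ℕ) then X k.castSucc * Y k.castSucc else 0

noncomputable def co (N : ℕ) (i : ℕ) : ℝ := 2 * ((N : ℝ) + 1) - i

noncomputable def ff (i : ℕ) (X : E (N + 1)) : ℝ :=
  co N i * bil i X X + 2 * i + 4 * ((N : ℝ) + 1)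

/-- The body. -/
def body (N : ℕ) (J : Finset ℕ) : Set (E (N + 1)) :=
  {X | ∀ i ∈ J, ff i X ≤ X (Fin.last N)}

lemma co_pos {i : ℕ} (h : i ≤ N) : 0 < co N i := by
  unfold co
  have : (i : ℝ) ≤ N := by exact_mod_cast h
  have : (0 : ℝ) ≤ N := by positivity
  linarith

lemma bil_nonneg (i : ℕ) (X : E (N + 1)) : 0 ≤ bil i X X := by
  unfold bil
  refine Finset.sum_nonneg fun k _ => ?_
  split_ifs
  · exact mul_self_nonneg _
  · exact le_rfl

lemma bil_add_smul (i : ℕ) (X V : E (N + 1)) (s : ℝ) :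
    bil i (X + s • V) (X + s • V) = bil i X X + 2 * s * bil i X V + s ^ 2 * bil i V V := by
  unfold bil
  rw [Finset.mul_sum, Finset.mul_sum, ← Finset.sum_add_distrib, ← Finset.sum_add_distrib]
  refine Finset.sum_congr rfl fun k _ => ?_
  split_ifs
  · simp only [PiLp.add_apply, PiLp.smul_apply, smul_eq_mul]; ring
  · ring

lemma bil_eq_zero_of (i : ℕ) (X V : E (N + 1)) (h : ∀ k : Fin N, i ≤ (k : ℕ) → V k.castSucc = 0) :
    bil i X V = 0 := by
  unfold bil
  refine Finset.sum_eq_zero fun k _ => ?_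
  split_ifs with hk
  · rw [h k hk, mul_zero]
  · rfl

lemma eq_zero_of_bil {i : ℕ} {V : E (N + 1)} (h : bil i V V ≤ 0) (k : Fin N) (hk : i ≤ (k : ℕ)) :
    V k.castSucc = 0 := by
  have h0 : bil i V V = 0 := le_antisymm h (bil_nonneg i V)
  unfold bil at h0
  rw [Finset.sum_eq_zero_iff_of_nonneg] at h0
  · have := h0 k (Finset.mem_univ _)
    rw [if_pos hk] at this
    exact mul_self_eq_zero.mp this
  · intro k _
    split_ifs
    · exact mul_self_nonneg _
    · exact le_rfl

/-- midpoint identity -/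
lemma bil_mid (i : ℕ) (X Y : E (N + 1)) :
    bil i ((1 / 2 : ℝ) • X + (1 / 2 : ℝ) • Y) ((1 / 2 : ℝ) • X + (1 / 2 : ℝ) • Y)
      = (bil i X X + bil i Y Y) / 2 - bil i (X - Y) (X - Y) / 4 := by
  unfold bil
  rw [← Finset.sum_add_distrib, Finset.sum_div, Finset.sum_div, ← Finset.sum_sub_distrib]
  refine Finset.sum_congr rfl fun k _ => ?_
  split_ifs
  · simp only [PiLp.add_apply, PiLp.smul_apply, PiLp.sub_apply, smul_eq_mul]; ring
  · ring

/-- The LMI: a convex combination inequality for one paraboloid. -/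
lemma one_lmi (a t : ℝ) (ha : 0 < a) (z : Fin N → ℝ) :
    (a * ∑ k, z k * z k ≤ t) ↔
      ∀ (u : ℝ) (w : Fin N → ℝ), 0 ≤ u * t * u + 2 * u * (∑ k, z k * w k) + (1 / a) * ∑ k, w k * w k := by
  constructor
  · intro h u w
    have h1 : 0 ≤ (1 / a) * ∑ k, (w k + a * u * z k) * (w k + a * u * z k) :=
      mul_nonneg (by positivity) (Finset.sum_nonneg fun k _ => mul_self_nonneg _)
    have h2 : (∑ k, (w k + a * u * z k) * (w k + a * u * z k))
        = (∑ k, w k * w k) + 2 * a * u * (∑ k, z k * w k) + a ^ 2 * u ^ 2 * ∑ k, z k * z k := by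
      rw [Finset.mul_sum, Finset.mul_sum, ← Finset.sum_add_distrib, ← Finset.sum_add_distrib]
      refine Finset.sum_congr rfl fun k _ => ?_
      ring
    rw [h2] at h1
    have h3 : (1 / a) * ((∑ k, w k * w k) + 2 * a * u * (∑ k, z k * w k)
        + a ^ 2 * u ^ 2 * ∑ k, z k * z k)
        = (1 / a) * (∑ k, w k * w k) + 2 * u * (∑ k, z k * w k) + u ^ 2 * (a * ∑ k, z k * z k) := by
      field_simp
    rw [h3] at h1
    nlinarith [mul_le_mul_of_nonneg_left h (sq_nonneg u)]
  · intro h
    have h1 := h 1 (fun k => - a * z k)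
    have h2 : (∑ k, z k * (- a * z k)) = - a * ∑ k, z k * z k := by
      rw [Finset.mul_sum]; refine Finset.sum_congr rfl fun k _ => ?_; ring
    have h3 : (∑ k, (- a * z k) * (- a * z k)) = a ^ 2 * ∑ k, z k * z k := by
      rw [Finset.mul_sum]; refine Finset.sum_congr rfl fun k _ => ?_; ring
    rw [h2, h3] at h1
    have h4 : (1 / a) * (a ^ 2 * ∑ k, z k * z k) = a * ∑ k, z k * z k := by
      field_simp
    rw [h4] at h1
    linarith

section lmi

variable (J : Finset ℕ)

/-- constant part of the pencil -/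
noncomputable def c0m (N : ℕ) (J : Finset ℕ) :
    Matrix (J × Option (Fin N)) (J × Option (Fin N)) ℝ :=
  fun p q => if p.1 = q.1 then
    (match p.2, q.2 with
      | none, none => -(2 * ((p.1 : ℕ) : ℝ) + 4 * ((N : ℝ) + 1))
      | some k, some k' => if k = k' then 1 / co N p.1 else 0
      | _, _ => 0) else 0

/-- linear part of the pencil -/
noncomputable def cm (N : ℕ) (J : Finset ℕ) (l : Fin (N + 1)) :
    Matrix (J × Option (Fin N)) (J × Option (Fin N)) ℝ :=
  fun p q => if p.1 = q.1 then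
    (match p.2, q.2 with
      | none, none => if l = Fin.last N then 1 else 0
      | none, some k => if l = k.castSucc then (if ((p.1 : ℕ)) ≤ (k : ℕ) then 1 else 0) else 0
      | some k, none => if l = k.castSucc then (if ((p.1 : ℕ)) ≤ (k : ℕ) then 1 else 0) else 0
      | some _, some _ => 0) else 0

lemma form_eq (X : E (N + 1)) (v : J × Option (Fin N) → ℝ) :
    (∑ p, ∑ q, v p * (c0m N J p q + ∑ l, X l * cm N J l p q) * v q)
      = ∑ i : J, (v (i, none) * (X (Fin.last N) - 2 * ((i : ℕ) : ℝ) - 4 * ((N : ℝ) + 1)) * v (i, none)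
          + 2 * v (i, none) * (∑ k : Fin N, (if (i : ℕ) ≤ (k : ℕ) then X k.castSucc else 0) * v (i, some k))
          + (1 / co N i) * ∑ k : Fin N, v (i, some k) * v (i, some k)) := by
  rw [Fintype.sum_prod_type]
  refine Finset.sum_congr rfl fun i _ => ?_
  have hq : ∀ p2 : Option (Fin N),
      (∑ q : J × Option (Fin N), v (i, p2) * (c0m N J (i, p2) q + ∑ l, X l * cm N J l (i, p2) q) * v q)
        = ∑ q2 : Option (Fin N), v (i, p2) * (c0m N J (i, p2) (i, q2)
            + ∑ l, X l * cm N J l (i, p2) (i, q2)) * v (i, q2) := by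
    intro p2
    rw [Fintype.sum_prod_type, Finset.sum_eq_single i]
    · intro j _ hj
      refine Finset.sum_eq_zero fun q2 _ => ?_
      simp [c0m, cm, Ne.symm hj]
    · simp
  simp only [hq]
  rw [Fintype.sum_option, Fintype.sum_option]
  simp only [Fintype.sum_option]
  simp only [c0m, cm, if_true, mul_ite, mul_one, mul_zero, Finset.sum_ite_eq', Finset.sum_ite_eq,
    Finset.mem_univ, zero_add, ite_mul, zero_mul, Finset.sum_const_zero, add_zero]
  rw [Finset.sum_add_distrib, Finset.mul_sum, Finset.mul_sum]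
  have e1 : (∑ x : Fin N, if (i : ℕ) ≤ (x : ℕ) then v (i, some x) * X.ofLp x.castSucc * v (i, none) else 0)
      = ∑ x : Fin N, if (i : ℕ) ≤ (x : ℕ) then v (i, none) * X.ofLp x.castSucc * v (i, some x) else 0 := by
    refine Finset.sum_congr rfl fun x _ => ?_
    split_ifs
    · ring
    · rfl
  have e2 : (∑ x : Fin N, 2 * v (i, none) * (if (i : ℕ) ≤ (x : ℕ) then X.ofLp x.castSucc * v (i, some x) else 0))
      = (∑ x : Fin N, if (i : ℕ) ≤ (x : ℕ) then v (i, none) * X.ofLp x.castSucc * v (i, some x) else 0)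
        + ∑ x : Fin N, if (i : ℕ) ≤ (x : ℕ) then v (i, none) * X.ofLp x.castSucc * v (i, some x) else 0 := by
    rw [← Finset.sum_add_distrib]
    refine Finset.sum_congr rfl fun x _ => ?_
    split_ifs
    · ring
    · ring
  have e3 : (∑ x : Fin N, v (i, some x) * (1 / co N ↑i) * v (i, some x))
      = ∑ x : Fin N, 1 / co N ↑i * (v (i, some x) * v (i, some x)) := by
    refine Finset.sum_congr rfl fun x _ => ?_
    ring
  rw [e1, e2, e3]
  ring

lemma body_isSpectrahedron (hJ : ∀ i ∈ J, i ≤ N) : IsSpectrahedron (body N J) := by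
  classical
  refine isSpectrahedron_of_form (body N J) (c0m N J) (cm N J) ?_ ?_ ?_
  · refine Matrix.IsSymm.ext ?_
    rintro ⟨i, p⟩ ⟨j, q⟩
    by_cases hij : i = j
    · subst hij
      cases p <;> cases q <;> simp [c0m, eq_comm]
    · simp [c0m, hij, Ne.symm hij]
  · intro l
    refine Matrix.IsSymm.ext ?_
    rintro ⟨i, p⟩ ⟨j, q⟩
    by_cases hij : i = j
    · subst hij
      cases p <;> cases q <;> simp [cm]
    · simp [cm, hij, Ne.symm hij]
  · intro X
    simp only [form_eq]
    have hi : ∀ i : J, (ff (i : ℕ) X ≤ X (Fin.last N)) ↔ ∀ (u : ℝ) (w : Fin N → ℝ),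
        0 ≤ u * (X (Fin.last N) - 2 * ((i : ℕ) : ℝ) - 4 * ((N : ℝ) + 1)) * u
          + 2 * u * (∑ k : Fin N, (if (i : ℕ) ≤ (k : ℕ) then X k.castSucc else 0) * w k)
          + (1 / co N i) * ∑ k : Fin N, w k * w k := by
      intro i
      rw [← one_lmi (co N i) _ (co_pos (hJ i i.2)) (fun k : Fin N => if (i : ℕ) ≤ (k : ℕ) then X k.castSucc else 0)]
      have : (∑ k : Fin N, (if (i : ℕ) ≤ (k : ℕ) then X k.castSucc else 0)
          * (if (i : ℕ) ≤ (k : ℕ) then X k.castSucc else 0)) = bil (i : ℕ) X X := by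
        unfold bil
        refine Finset.sum_congr rfl fun k _ => ?_
        split_ifs <;> simp
      rw [this]
      unfold ff
      constructor <;> intro h <;> linarith
    constructor
    · intro hX v
      refine Finset.sum_nonneg fun i _ => ?_
      exact (hi i).mp (hX i i.2) (v (i, none)) (fun k => v (i, some k))
    · intro h i0 hi0
      refine (hi ⟨i0, hi0⟩).mpr fun u w => ?_
      have h1 := h (fun p => if p.1 = ⟨i0, hi0⟩ then (match p.2 with | none => u | some k => w k) else 0)
      rw [Finset.sum_eq_single (⟨i0, hi0⟩ : J)] at h1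
      · simpa using h1
      · intro j _ hj
        simp [hj]
      · simp

end lmi

end Pool.Agent.R788.FE
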