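import Mathlib

/-!
Convex-geometric definitions for MP_f0e28a_gt: faces, exposed faces, facial dimension
signature, polar, spectrahedra.
-/

open scoped BigOperators

namespace Pool.Agent.R788.FE

/-- Euclidean space. -/
abbrev E (n : ℕ) := EuclideanSpace ℝ (Fin n)

/-- `F` is a face of `C`: a convex subset of `C` such that whenever `x, y ∈ C` and the open
segment `(x,y)` meets `F`, both `x` and `y` lie in `F`. -/
def IsFace {n : ℕ} (C F : Set (E n)) : Prop :=
  Convex ℝ F ∧ F ⊆ C ∧
    ∀ x ∈ C, ∀ y ∈ C, (openSegment ℝ x y ∩ F).Nonempty → x ∈ F ∧ y ∈ F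

/-- `F` is exposed in `C`: there is a closed half-space containing `C` whose boundary hyperplane
meets `C` in exactly `F`. -/
def IsExposedFace {n : ℕ} (C F : Set (E n)) : Prop :=
  ∃ (c : E n) (b : ℝ), c ≠ 0 ∧ (∀ x ∈ C, inner ℝ c x ≤ b) ∧ F = {x | x ∈ C ∧ inner ℝ c x = b}

/-- Every nonempty proper face is exposed. -/
def FaciallyExposed {n : ℕ} (C : Set (E n)) : Prop :=
  ∀ F : Set (E n), IsFace C F → F.Nonempty → F ≠ C → IsExposedFace C F

/-- The dimension of (the affine hull of) a set. -/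
noncomputable def dimSet {n : ℕ} (F : Set (E n)) : ℕ :=
  Module.finrank ℝ (vectorSpan ℝ F)

/-- The facial dimension signature. -/
def signature {n : ℕ} (C : Set (E n)) : Set ℕ :=
  {k | ∃ F : Set (E n), IsFace C F ∧ F.Nonempty ∧ dimSet F = k}

/-- The polar set. -/
def polarSet {n : ℕ} (C : Set (E n)) : Set (E n) :=
  {y | ∀ x ∈ C, inner ℝ x y ≤ 1}

/-- Spectrahedra. -/
def IsSpectrahedron {n : ℕ} (C : Set (E n)) : Prop :=
  ∃ (m : ℕ) (A0 : Matrix (Fin m) (Fin m) ℝ) (A : Fin n → Matrix (Fin m) (Fin m) ℝ),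
    A0.IsSymm ∧ (∀ i, (A i).IsSymm) ∧ C = {x | (A0 + ∑ i, x i • A i).PosSemidef}

/-- A matrix with real entries is PSD iff symmetric and its quadratic form is nonnegative. -/
lemma posSemidef_real_iff {ι : Type} [Fintype ι] {M : Matrix ι ι ℝ} (hM : M.IsSymm) :
    M.PosSemidef ↔ ∀ v : ι → ℝ, 0 ≤ ∑ p, ∑ q, v p * M p q * v q := by
  have hH : M.IsHermitian := by
    rw [Matrix.IsHermitian, Matrix.conjTranspose_eq_transpose_of_trivial]; exact hM
  rw [Matrix.posSemidef_iff_dotProduct_mulVec]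
  have key : ∀ v : ι → ℝ, star v ⬝ᵥ (M.mulVec v) = ∑ p, ∑ q, v p * M p q * v q := by
    intro v
    simp only [dotProduct, Matrix.mulVec, star_trivial, Finset.mul_sum, mul_assoc]
  constructor
  · rintro ⟨_, h⟩ v
    rw [← key]; exact h v
  · intro h
    refine ⟨hH, fun v => ?_⟩
    rw [key]; exact h v

/-- Criterion for being a spectrahedron, with an arbitrary finite index type. -/
lemma isSpectrahedron_of_form {n : ℕ} {ι : Type} [Fintype ι] (S : Set (E n))
    (c0 : Matrix ι ι ℝ) (c : Fin n → Matrix ι ι ℝ) (h0 : c0.IsSymm) (hc : ∀ l, (c l).IsSymm)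
    (hS : ∀ X : E n, X ∈ S ↔
      ∀ v : ι → ℝ, 0 ≤ ∑ p, ∑ q, v p * (c0 p q + ∑ l, X l * c l p q) * v q) :
    IsSpectrahedron S := by
  classical
  let e : Fin (Fintype.card ι) ≃ ι := (Fintype.equivFin ι).symm
  refine ⟨Fintype.card ι, c0.submatrix e e, fun l => (c l).submatrix e e, ?_, ?_, ?_⟩
  · exact h0.submatrix e
  · exact fun l => (hc l).submatrix e
  · ext X
    have h1 : (c0.submatrix e e + ∑ l, X l • (c l).submatrix e e)
        = (c0 + ∑ l, X l • c l).submatrix e e := by
      ext p q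
      simp [Matrix.submatrix_apply, Matrix.add_apply, Matrix.sum_apply]
    have hsym : (c0 + ∑ l, X l • c l).IsSymm := by
      refine Matrix.IsSymm.ext ?_
      intro p q
      simp only [Matrix.add_apply, Matrix.sum_apply, Matrix.smul_apply, h0.apply p q,
        fun l => (hc l).apply p q]
    rw [Set.mem_ofPred_eq, h1, Matrix.posSemidef_submatrix_equiv e, posSemidef_real_iff hsym, hS X]
    simp only [Matrix.add_apply, Matrix.sum_apply, Matrix.smul_apply, smul_eq_mul]

end Pool.Agent.R788.FE
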