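import Pool.Agent.R788.FE.Body

/-!
The faces of the body `S`.
-/

open scoped BigOperators Topology

namespace Pool.Agent.R788.FE

variable {N : ℕ} {J : Finset ℕ}

/-- `j` is the level of `X`: the smallest active index, or `N+1`. -/
def Lev (J : Finset ℕ) (X : E (N + 1)) (j : ℕ) : Prop :=
  ((j ∈ J ∧ ff j X = X (Fin.last N)) ∨ j = N + 1) ∧ ∀ i ∈ J, i < j → ff i X ≠ X (Fin.last N)

/-- The minimal face. -/
def FX (J : Finset ℕ) (X : E (N + 1)) (j : ℕ) : Set (E (N + 1)) :=
  {Y | Y ∈ body N J ∧ ∀ l : Fin (N + 1), j ≤ (l : ℕ) → Y l = X l}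

lemma exists_lev (J : Finset ℕ) (X : E (N + 1)) : ∃ j, Lev J X j := by
  classical
  have h : ∃ j, (j ∈ J ∧ ff j X = X (Fin.last N)) ∨ j = N + 1 := ⟨N + 1, Or.inr rfl⟩
  refine ⟨Nat.find h, Nat.find_spec h, fun i hi hlt heq => ?_⟩
  exact Nat.find_min h hlt (Or.inl ⟨hi, heq⟩)

lemma Lev.le (hJ : ∀ i ∈ J, i ≤ N) {X : E (N + 1)} {j : ℕ} (h : Lev J X j) : j ≤ N + 1 := by
  rcases h.1 with h | h
  · have := hJ j h.1; omega
  · omega

lemma continuous_coord (l : Fin (N + 1)) (X V : E (N + 1)) :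
    Continuous fun s : ℝ => (X + s • V) l := by
  simp only [PiLp.add_apply, PiLp.smul_apply, smul_eq_mul]
  fun_prop

lemma continuous_ff (i : ℕ) (X V : E (N + 1)) :
    Continuous fun s : ℝ => ff i (X + s • V) := by
  unfold ff
  simp only [bil_add_smul]
  fun_prop

lemma ff_add_smul_of {i j : ℕ} (hij : j ≤ i) (X V : E (N + 1))
    (hV : ∀ l : Fin (N + 1), j ≤ (l : ℕ) → V l = 0) (s : ℝ) : ff i (X + s • V) = ff i X := by
  have h0 : ∀ k : Fin N, i ≤ (k : ℕ) → V k.castSucc = 0 := fun k hk =>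
    hV _ (by simpa using hij.trans hk)
  unfold ff
  rw [bil_add_smul, bil_eq_zero_of i X V h0, bil_eq_zero_of i V V h0]
  ring

/-- perturbation inside the minimal face -/
lemma perturb (hJ : ∀ i ∈ J, i ≤ N) {X : E (N + 1)} (hX : X ∈ body N J) {j : ℕ}
    (hl : Lev J X j) (V : E (N + 1)) (hV : ∀ l : Fin (N + 1), j ≤ (l : ℕ) → V l = 0) :
    ∀ᶠ s in 𝓝 (0 : ℝ), X + s • V ∈ body N J := by
  have h : ∀ i ∈ J, ∀ᶠ s in 𝓝 (0 : ℝ), ff i (X + s • V) ≤ (X + s • V) (Fin.last N) := by
    intro i hi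
    by_cases hij : i < j
    · have hlt : ff i X < X (Fin.last N) := lt_of_le_of_ne (hX i hi) (hl.2 i hi hij)
      have h0 : ff i (X + (0 : ℝ) • V) < (X + (0 : ℝ) • V) (Fin.last N) := by simpa using hlt
      have := (continuous_ff i X V).continuousAt.eventually_lt
        (continuous_coord (Fin.last N) X V).continuousAt h0
      exact this.mono fun s hs => hs.le
    · push Not at hij
      refine Filter.Eventually.of_forall fun s => ?_
      rw [ff_add_smul_of hij X V hV s]
      have hlast : V (Fin.last N) = 0 := hV _ (by have := hJ i hi; simp; omega)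
      simp only [PiLp.add_apply, PiLp.smul_apply, smul_eq_mul, hlast, mul_zero, add_zero]
      exact hX i hi
  exact (Filter.eventually_all_finset J).mpr h

lemma exists_pos_of_eventually {P : ℝ → Prop} (h : ∀ᶠ s in 𝓝 (0 : ℝ), P s) :
    ∃ ε > 0, P ε := by
  obtain ⟨δ, hδ, hP⟩ := Metric.eventually_nhds_iff.mp h
  refine ⟨δ / 2, by positivity, hP ?_⟩
  rw [Real.dist_eq, sub_zero, abs_of_pos (by positivity)]
  linarith

/-- general lemma: relative interior point in face forces containment -/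
lemma mem_face_of_extend {n : ℕ} {C F : Set (E n)} (hF : IsFace C F) {X Y : E n} (hX : X ∈ F)
    (hY : Y ∈ C) {ε : ℝ} (hε : 0 < ε) (hZ : X + ε • (X - Y) ∈ C) : Y ∈ F := by
  refine (hF.2.2 Y hY _ hZ ⟨X, ?_, hX⟩).1
  refine ⟨ε / (1 + ε), 1 / (1 + ε), by positivity, by positivity, by field_simp; ring, ?_⟩
  have h1 : (1 + ε) ≠ 0 := by positivity
  ext l
  simp only [PiLp.add_apply, PiLp.smul_apply, PiLp.sub_apply, smul_eq_mul]
  field_simp
  ring

lemma FX_subset_face (hJ : ∀ i ∈ J, i ≤ N) {F : Set (E (N + 1))} (hF : IsFace (body N J) F)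
    {X : E (N + 1)} (hX : X ∈ F) {j : ℕ} (hl : Lev J X j) : FX J X j ⊆ F := by
  rintro Y ⟨hY, hYl⟩
  obtain ⟨ε, hε, hZ⟩ := exists_pos_of_eventually
    (perturb hJ (hF.2.1 hX) hl (X - Y) (fun l hl' => by simp [hYl l hl']))
  exact mem_face_of_extend hF hX hY hε hZ

/-- the basic strict convexity computation -/
lemma ff_mid (i : ℕ) (X Y : E (N + 1)) :
    ff i ((1 / 2 : ℝ) • X + (1 / 2 : ℝ) • Y)
      = (ff i X + ff i Y) / 2 - co N i * bil i (X - Y) (X - Y) / 4 := by
  unfold ff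
  rw [bil_mid]
  ring

lemma ff_eq_of_coord {i : ℕ} {X Y : E (N + 1)}
    (h : ∀ k : Fin N, i ≤ (k : ℕ) → Y k.castSucc = X k.castSucc) : ff i Y = ff i X := by
  unfold ff bil
  have : (∑ k : Fin N, if i ≤ (k : ℕ) then Y k.castSucc * Y k.castSucc else 0)
      = ∑ k : Fin N, if i ≤ (k : ℕ) then X k.castSucc * X k.castSucc else 0 := by
    refine Finset.sum_congr rfl fun k _ => ?_
    split_ifs with hk
    · rw [h k hk]
    · rfl
  rw [this]

lemma mem_FX_of {i : ℕ} {X Y : E (N + 1)} (hY : Y ∈ body N J)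
    (h1 : ∀ k : Fin N, i ≤ (k : ℕ) → Y k.castSucc = X k.castSucc)
    (h2 : Y (Fin.last N) = X (Fin.last N)) : Y ∈ FX J X i := by
  refine ⟨hY, fun l hl => ?_⟩
  refine Fin.lastCases ?_ (fun k => ?_) l (motive := fun l => i ≤ (l : ℕ) → Y l = X l) hl
  · intro _; exact h2
  · intro hk; exact h1 k (by simpa using hk)

lemma face_eq_FX (hJ : ∀ i ∈ J, i ≤ N) {F : Set (E (N + 1))} (hF : IsFace (body N J) F)
    (hne : F.Nonempty) : ∃ X ∈ F, ∃ j, Lev J X j ∧ F = FX J X j := by
  classical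
  have hset : {j | ∃ X ∈ F, Lev J X j}.Nonempty := by
    obtain ⟨X, hX⟩ := hne
    obtain ⟨j, hj⟩ := exists_lev J X
    exact ⟨j, X, hX, hj⟩
  have hbdd : BddAbove {j | ∃ X ∈ F, Lev J X j} := by
    refine ⟨N + 1, ?_⟩
    rintro j ⟨X, _, hj⟩
    exact hj.le hJ
  obtain ⟨X, hX, hj⟩ := Nat.sSup_mem hset hbdd
  set j := sSup {j | ∃ X ∈ F, Lev J X j} with hjdef
  refine ⟨X, hX, j, hj, Set.Subset.antisymm ?_ (FX_subset_face hJ hF hX hj)⟩
  intro Y hY
  have hZ : (1 / 2 : ℝ) • X + (1 / 2 : ℝ) • Y ∈ F :=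
    hF.1 hX hY (by norm_num) (by norm_num) (by norm_num)
  obtain ⟨i, hi⟩ := exists_lev J ((1 / 2 : ℝ) • X + (1 / 2 : ℝ) • Y)
  have hij : i ≤ j := le_csSup hbdd ⟨_, hZ, hi⟩
  have hYS := hF.2.1 hY
  have hXS := hF.2.1 hX
  rcases hi.1 with ⟨hiJ, hact⟩ | hi'
  · rw [ff_mid] at hact
    have hl : ((1 / 2 : ℝ) • X + (1 / 2 : ℝ) • Y) (Fin.last N)
        = (X (Fin.last N) + Y (Fin.last N)) / 2 := by
      simp only [PiLp.add_apply, PiLp.smul_apply, smul_eq_mul]; ring
    rw [hl] at hact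
    have h1 := hXS i hiJ
    have h2 := hYS i hiJ
    have hc := co_pos (hJ i hiJ)
    have hb := bil_nonneg i (X - Y)
    have h3 : co N i * bil i (X - Y) (X - Y) ≤ 0 := by linarith
    have h4 : bil i (X - Y) (X - Y) ≤ 0 := by
      by_contra hcon
      push Not at hcon
      have := mul_pos hc hcon
      linarith
    have h5 : co N i * bil i (X - Y) (X - Y) = 0 := by
      rw [le_antisymm h4 hb, mul_zero]
    have h6 : ff i X = X (Fin.last N) := by linarith
    have h7 : ff i Y = Y (Fin.last N) := by linarith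
    have hij' : i = j := by
      by_contra hne'
      exact hj.2 i hiJ (lt_of_le_of_ne hij hne') h6
    rw [← hij']
    have h8 : ∀ k : Fin N, i ≤ (k : ℕ) → Y k.castSucc = X k.castSucc := by
      intro k hk
      have := eq_zero_of_bil h4 k hk
      simp only [PiLp.sub_apply] at this
      linarith
    exact mem_FX_of hYS h8 (by rw [← h6, ← h7]; exact ff_eq_of_coord h8)
  · have : j = N + 1 := le_antisymm (hj.le hJ) (hi' ▸ hij)
    refine ⟨hYS, fun l hl => ?_⟩
    have := l.2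
    omega

/-- The exposing functional. -/
noncomputable def expo (i : ℕ) (X : E (N + 1)) : E (N + 1) :=
  WithLp.toLp 2 (Fin.snoc (α := fun _ => ℝ)
    (fun k : Fin N => if i ≤ (k : ℕ) then 2 * co N i * X k.castSucc else 0) (-1))

lemma inner_expo (i : ℕ) (X Y : E (N + 1)) :
    inner ℝ (expo i X) Y = 2 * co N i * bil i X Y - Y (Fin.last N) := by
  unfold expo bil
  simp only [PiLp.inner_apply, RCLike.inner_apply, conj_trivial]
  rw [Fin.sum_univ_castSucc]
  simp only [Fin.snoc_castSucc, Fin.snoc_last]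
  rw [Finset.mul_sum]
  have : (∑ k : Fin N, Y k.castSucc * (if i ≤ (k : ℕ) then 2 * co N i * X k.castSucc else 0))
      = ∑ k : Fin N, 2 * co N i * (if i ≤ (k : ℕ) then X k.castSucc * Y k.castSucc else 0) := by
    refine Finset.sum_congr rfl fun k _ => ?_
    split_ifs
    · ring
    · ring
  rw [this]
  ring

lemma bil_sub_self (i : ℕ) (X Y : E (N + 1)) :
    bil i (Y - X) (Y - X) = bil i Y Y - 2 * bil i X Y + bil i X X := by
  unfold bil
  rw [Finset.mul_sum, ← Finset.sum_sub_distrib, ← Finset.sum_add_distrib]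
  refine Finset.sum_congr rfl fun k _ => ?_
  split_ifs
  · simp only [PiLp.sub_apply]; ring
  · ring

lemma FX_exposed (hJ : ∀ i ∈ J, i ≤ N) {X : E (N + 1)} {j : ℕ} (hjJ : j ∈ J)
    (hact : ff j X = X (Fin.last N)) : IsExposedFace (body N J) (FX J X j) := by
  have hc := co_pos (hJ j hjJ)
  have key : ∀ Y : E (N + 1), inner ℝ (expo j X) X - inner ℝ (expo j X) Y
      = (Y (Fin.last N) - ff j Y) + co N j * bil j (Y - X) (Y - X) := by
    intro Y
    rw [inner_expo, inner_expo, bil_sub_self]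
    have h1 : ff j Y = co N j * bil j Y Y + 2 * j + 4 * ((N : ℝ) + 1) := rfl
    have h2 : X (Fin.last N) = co N j * bil j X X + 2 * j + 4 * ((N : ℝ) + 1) := hact.symm
    rw [h1, h2]
    ring
  refine ⟨expo j X, inner ℝ (expo j X) X, ?_, ?_, ?_⟩
  · intro h
    have h1 : (expo j X) (Fin.last N) = -1 := by simp [expo]
    rw [h] at h1
    simp at h1
  · intro Y hY
    have h1 := key Y
    have h2 := hY j hjJ
    have h3 := mul_nonneg hc.le (bil_nonneg j (Y - X))
    linarith
  · ext Y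
    constructor
    · rintro ⟨hY, hYl⟩
      refine ⟨hY, ?_⟩
      have h1 := key Y
      have hk : ∀ k : Fin N, j ≤ (k : ℕ) → Y k.castSucc = X k.castSucc :=
        fun k hk => hYl _ (by simpa using hk)
      have h2 : ff j Y = ff j X := ff_eq_of_coord hk
      have h3 : bil j (Y - X) (Y - X) = 0 :=
        bil_eq_zero_of j _ _ fun k hk' => by simp [hk k hk']
      have h4 : Y (Fin.last N) = X (Fin.last N) := hYl _ (by simpa using hJ j hjJ)
      rw [h3, h2, h4, hact] at h1
      linarith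
    · rintro ⟨hY, hYe⟩
      have h1 := key Y
      have h2 := hY j hjJ
      have h3 := bil_nonneg j (Y - X)
      have h3' := mul_nonneg hc.le h3
      have h4 : bil j (Y - X) (Y - X) ≤ 0 := by
        by_contra hcon
        push Not at hcon
        have := mul_pos hc hcon
        linarith
      have h5 : co N j * bil j (Y - X) (Y - X) = 0 := by
        rw [le_antisymm h4 h3, mul_zero]
      have h6 : ff j Y = Y (Fin.last N) := by linarith
      have h8 : ∀ k : Fin N, j ≤ (k : ℕ) → Y k.castSucc = X k.castSucc := by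
        intro k hk
        have := eq_zero_of_bil h4 k hk
        simp only [PiLp.sub_apply] at this
        linarith
      exact mem_FX_of hY h8 (by rw [← hact, ← h6]; exact ff_eq_of_coord h8)

end Pool.Agent.R788.FE
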