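import Mathlib
import Pool.Agent.R788.FE.Defs

/-!
General facts on faces of convex sets: relative interior points, minimal faces, bipolar.
-/

open Module Submodule

namespace Pool.Agent.R788.FE

variable {n : ℕ}

lemma exists_relint {F : Set (E n)} (hF : Convex ℝ F) (hne : F.Nonempty) :
    ∃ x ∈ F, ∃ ε > 0, ∀ v ∈ vectorSpan ℝ F, ‖v‖ ≤ ε → x + v ∈ F := by
  obtain ⟨x, hx⟩ := (intrinsicInterior_nonempty hF).mpr hne
  rw [mem_intrinsicInterior] at hx
  obtain ⟨y, hy, rfl⟩ := hx
  rw [mem_interior_iff_mem_nhds, Metric.mem_nhds_iff] at hy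
  obtain ⟨ε, hε, hb⟩ := hy
  have hyF : (y : E n) ∈ F := hb (Metric.mem_ball_self hε)
  refine ⟨y, hyF, ε / 2, half_pos hε, fun v hv hvn => ?_⟩
  have hmem : (y : E n) + v ∈ affineSpan ℝ F := by
    have := AffineSubspace.vadd_mem_of_mem_direction (s := affineSpan ℝ F)
      (by rw [direction_affineSpan]; exact hv) y.2
    rw [vadd_eq_add, add_comm] at this
    exact this
  have : (⟨y + v, hmem⟩ : affineSpan ℝ F) ∈ Metric.ball y ε := by
    rw [Metric.mem_ball, Subtype.dist_eq, dist_eq_norm]
    simp only [add_sub_cancel_left]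
    linarith
  exact hb this

lemma shrink {S : Set (E n)} (hS : Convex ℝ S) {x u : E n} (hx : x ∈ S) {ε δ : ℝ} (hε : 0 < ε)
    (h : x + ε • u ∈ S) (hδ0 : 0 ≤ δ) (hδ : δ ≤ ε) : x + δ • u ∈ S := by
  have h1 := hS hx h (a := 1 - δ / ε) (b := δ / ε)
    (by rw [sub_nonneg, div_le_one hε]; exact hδ) (by positivity) (by ring)
  have h2 : (1 - δ / ε) • x + (δ / ε) • (x + ε • u) = x + δ • u := by
    rw [smul_add, smul_smul, div_mul_cancel₀ _ hε.ne']
    module
  rwa [h2] at h1

/-- The minimal face of `S` containing `x`. -/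
def minFace (S : Set (E n)) (x : E n) : Set (E n) :=
  {y | y ∈ S ∧ ∃ ε : ℝ, 0 < ε ∧ x + ε • (x - y) ∈ S}

lemma self_mem_minFace {S : Set (E n)} {x : E n} (hx : x ∈ S) : x ∈ minFace S x :=
  ⟨hx, 1, one_pos, by simpa using hx⟩

lemma minFace_isFace {S : Set (E n)} (hS : Convex ℝ S) {x : E n} (hx : x ∈ S) :
    IsFace S (minFace S x) := by
  refine ⟨?_, fun y hy => hy.1, ?_⟩
  · rintro y ⟨hy, ε, hε, hyε⟩ z ⟨hz, δ, hδ, hzδ⟩ a b ha hb hab
    refine ⟨hS hy hz ha hb hab, min ε δ, lt_min hε hδ, ?_⟩
    have h1 := shrink hS hx hε hyε (lt_min hε hδ).le (min_le_left _ _)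
    have h2 := shrink hS hx hδ hzδ (lt_min hε hδ).le (min_le_right _ _)
    have h3 := hS h1 h2 ha hb hab
    have h4 : a • (x + min ε δ • (x - y)) + b • (x + min ε δ • (x - z))
        = x + min ε δ • (x - (a • y + b • z)) := by
      have : a = 1 - b := by linarith
      subst this
      module
    rwa [h4] at h3
  · have key : ∀ a ∈ S, ∀ b ∈ S, ∀ α β : ℝ, 0 < α → 0 < β → α + β = 1 →
        α • a + β • b ∈ minFace S x → a ∈ minFace S x := by
      rintro a ha b hb α β hα hβ hαβ ⟨-, ε, hε, hc⟩
      refine ⟨ha, ε * α / (1 + ε * β), by positivity, ?_⟩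
      have h1 : (0 : ℝ) < 1 + ε * β := by positivity
      have h2 := hS hc hb (a := 1 / (1 + ε * β)) (b := ε * β / (1 + ε * β)) (by positivity)
        (by positivity) (by field_simp)
      have h3 : (1 / (1 + ε * β)) • (x + ε • (x - (α • a + β • b))) + (ε * β / (1 + ε * β)) • b
          = x + (ε * α / (1 + ε * β)) • (x - a) := by
        have hα' : α = 1 - β := by linarith
        subst hα'
        ext l
        simp only [PiLp.add_apply, PiLp.smul_apply, PiLp.sub_apply, smul_eq_mul]
        field_simp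
        ring
      rwa [h3] at h2
    rintro a ha b hb ⟨c, ⟨α, β, hα, hβ, hαβ, rfl⟩, hc⟩
    exact ⟨key a ha b hb α β hα hβ hαβ hc,
      key b hb a ha β α hβ hα (by linarith) (by rw [add_comm]; exact hc)⟩

lemma minFace_subset {S F : Set (E n)} (hF : IsFace S F) {x : E n} (hx : x ∈ F) :
    minFace S x ⊆ F := by
  rintro y ⟨hy, ε, hε, h⟩
  refine (hF.2.2 y hy _ h ⟨x, ?_, hx⟩).1
  refine ⟨ε / (1 + ε), 1 / (1 + ε), by positivity, by positivity, by field_simp; ring, ?_⟩
  have h1 : (1 + ε) ≠ 0 := by positivity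
  ext l
  simp only [PiLp.add_apply, PiLp.smul_apply, PiLp.sub_apply, smul_eq_mul]
  field_simp
  ring

/-- every vector of the direction space of the minimal face is a two-sided direction. -/
lemma minFace_dir {S : Set (E n)} (hS : Convex ℝ S) {x : E n} (hx : x ∈ S) :
    ∀ v ∈ vectorSpan ℝ (minFace S x), ∃ ε : ℝ, 0 < ε ∧ x + ε • v ∈ minFace S x := by
  -- the set of two-sided directions is a submodule
  let W : Submodule ℝ (E n) :=
    { carrier := {v | ∃ ε : ℝ, 0 < ε ∧ x + ε • v ∈ S ∧ x + ε • (-v) ∈ S}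
      zero_mem' := ⟨1, one_pos, by simpa using hx, by simpa using hx⟩
      add_mem' := by
        rintro v w ⟨ε, hε, h1, h2⟩ ⟨δ, hδ, h3, h4⟩
        have hm : 0 < min ε δ := lt_min hε hδ
        refine ⟨min ε δ / 2, by positivity, ?_, ?_⟩
        · have := hS (shrink hS hx hε h1 hm.le (min_le_left _ _))
            (shrink hS hx hδ h3 hm.le (min_le_right _ _)) (a := 1 / 2) (b := 1 / 2)
            (by norm_num) (by norm_num) (by norm_num)
          convert! this using 1
          module
        · have := hS (shrink hS hx hε h2 hm.le (min_le_left _ _))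
            (shrink hS hx hδ h4 hm.le (min_le_right _ _)) (a := 1 / 2) (b := 1 / 2)
            (by norm_num) (by norm_num) (by norm_num)
          convert! this using 1
          module
      smul_mem' := by
        rintro c v ⟨ε, hε, h1, h2⟩
        rcases lt_trichotomy c 0 with hc | hc | hc
        · refine ⟨ε / (-c), by apply div_pos hε; linarith, ?_, ?_⟩
          · convert! h2 using 2
            rw [smul_smul, smul_neg, ← neg_smul]
            congr 1
            have hc' := hc.ne
            field_simp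
          · convert! h1 using 2
            rw [smul_neg, smul_smul, ← neg_smul]
            congr 1
            have hc' := hc.ne
            field_simp
        · subst hc
          exact ⟨1, one_pos, by simpa using hx, by simpa using hx⟩
        · refine ⟨ε / c, by positivity, ?_, ?_⟩
          · convert! h1 using 2
            rw [smul_smul]
            congr 1
            field_simp
          · convert! h2 using 2
            rw [smul_neg, smul_smul, smul_neg]
            congr 2
            field_simp }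
  have hsub : ∀ y ∈ minFace S x, y - x ∈ W := by
    rintro y ⟨hy, ε, hε, h⟩
    refine ⟨min ε 1, lt_min hε one_pos, ?_, ?_⟩
    · exact shrink hS hx one_pos (by simpa using hy) (lt_min hε one_pos).le (min_le_right _ _)
    · refine shrink hS hx hε ?_ (lt_min hε one_pos).le (min_le_left _ _)
      convert! h using 3
      abel
  have hle : vectorSpan ℝ (minFace S x) ≤ W := by
    rw [vectorSpan_def, Submodule.span_le]
    rintro _ ⟨y, hy, z, hz, rfl⟩
    have : (y -ᵥ z : E n) = (y - x) - (z - x) := by rw [vsub_eq_sub]; abel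
    simp only [this]
    exact W.sub_mem (hsub y hy) (hsub z hz)
  intro v hv
  obtain ⟨ε, hε, h1, h2⟩ := hle hv
  refine ⟨ε, hε, h1, 1, one_pos, ?_⟩
  convert! h2 using 2
  rw [one_smul, smul_neg]
  abel

/-- Bipolar theorem, the part needed. -/
lemma bipolar {S : Set (E n)} (hS : Convex ℝ S) (hcl : IsClosed S) (h0 : (0 : E n) ∈ S) {x : E n}
    (h : ∀ y ∈ polarSet S, inner ℝ x y ≤ 1) : x ∈ S := by
  by_contra hx
  obtain ⟨f, u, hf, hfx⟩ := geometric_hahn_banach_closed_point hS hcl hx
  have hu : 0 < u := by simpa using hf 0 h0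
  set y0 : E n := (InnerProductSpace.toDual ℝ (E n)).symm f with hy0
  have hfy : ∀ a, f a = inner ℝ y0 a := by
    intro a
    rw [hy0, InnerProductSpace.toDual_symm_apply]
  have hy : u⁻¹ • y0 ∈ polarSet S := by
    intro s hs
    rw [inner_smul_right, real_inner_comm, ← hfy]
    have := hf s hs
    rw [inv_mul_le_iff₀ hu]
    linarith
  have := h _ hy
  rw [inner_smul_right, real_inner_comm, ← hfy, inv_mul_le_iff₀ hu] at this
  linarith

lemma perp_eq {L V : Submodule ℝ (E n)} (hVL : V ≤ L) (hL : finrank ℝ L = 3)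
    (hV : finrank ℝ V = 2) {c : E n} (hc : c ∈ L) (hc0 : c ≠ 0) (hcV : ∀ v ∈ V, inner ℝ c v = 0) :
    V = (ℝ ∙ c)ᗮ ⊓ L := by
  have h1 : (ℝ ∙ c) ≤ L := by rw [Submodule.span_singleton_le_iff_mem]; exact hc
  have h2 := Submodule.finrank_add_inf_finrank_orthogonal h1
  rw [finrank_span_singleton hc0, hL] at h2
  apply Submodule.eq_of_le_of_finrank_eq
  · refine le_inf ?_ hVL
    intro v hv
    rw [Submodule.mem_orthogonal_singleton_iff_inner_right]
    exact hcV v hv
  · omega

end Pool.Agent.R788.FE
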