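import Mathlib
import Pool.Agent.R788.FE.Neg1

/-!
Countability of the set of two-dimensional faces of a closed convex set with three-dimensional
affine hull.
-/

open Module Submodule

namespace Pool.Agent.R788.FE

variable {n : ℕ}

/-- data attached to a facet -/
def FacetData (S : Set (E n)) (L : Submodule ℝ (E n)) (ε : ℝ) (G : Set (E n)) (c z : E n) : Prop :=
  ‖c‖ = 1 ∧ c ∈ L ∧ (∀ x ∈ S, inner ℝ c x ≤ inner ℝ c z) ∧
    G = {x | x ∈ S ∧ inner ℝ c x = inner ℝ c z} ∧
    ∀ v ∈ L, inner ℝ c v = 0 → ‖v‖ ≤ ε → z + v ∈ S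

/-- A facet has a normal in `L` exposing it. -/
lemma facet_normal {S : Set (E n)} (h0 : (0 : E n) ∈ S)
    (hL : finrank ℝ (vectorSpan ℝ S) = 3) (hfe : FaciallyExposed S) {G : Set (E n)}
    (hG : IsFace S G) (hne : G.Nonempty) (hG2 : dimSet G = 2) :
    ∃ (c : E n) (b : ℝ), ‖c‖ = 1 ∧ c ∈ vectorSpan ℝ S ∧ (∀ x ∈ S, inner ℝ c x ≤ b) ∧
      G = {x | x ∈ S ∧ inner ℝ c x = b} ∧
      vectorSpan ℝ G = (ℝ ∙ c)ᗮ ⊓ vectorSpan ℝ S := by
  have hGS : G ≠ S := by
    rintro rfl
    unfold dimSet at hG2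
    omega
  obtain ⟨c0, b0, hc0, hle, hGeq⟩ := hfe G hG hne hGS
  set L := vectorSpan ℝ S with hLdef
  have hSL : ∀ x ∈ S, x ∈ L := by
    intro x hx
    have := vsub_mem_vectorSpan ℝ hx h0
    simpa using this
  set c1 : E n := L.starProjection c0 with hc1
  have hc1L : c1 ∈ L := L.starProjection_apply_mem c0
  have hin : ∀ x ∈ L, inner ℝ c1 x = inner ℝ c0 x := by
    intro x hx
    have := Submodule.starProjection_inner_eq_zero (K := L) c0 x hx
    rw [inner_sub_left] at this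
    linarith
  have hc10 : c1 ≠ 0 := by
    intro h
    have hz : ∀ x ∈ S, inner ℝ c0 x = 0 := by
      intro x hx
      rw [← hin x (hSL x hx), h, inner_zero_left]
    obtain ⟨g, hg⟩ := hne
    rw [hGeq] at hg
    have hb : b0 = 0 := by rw [← hg.2, hz g hg.1]
    apply hGS
    rw [hGeq]
    ext x
    constructor
    · exact fun h => h.1
    · exact fun h => ⟨h, by rw [hz x h, hb]⟩
  have hpos : 0 < ‖c1‖ := norm_pos_iff.mpr hc10
  have hG' : G = {x | x ∈ S ∧ inner ℝ (‖c1‖⁻¹ • c1) x = ‖c1‖⁻¹ * b0} := by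
    rw [hGeq]
    ext x
    simp only [Set.mem_ofPred_eq]
    refine and_congr_right fun hx => ?_
    rw [inner_smul_left, hin x (hSL x hx)]
    simp only [conj_trivial]
    constructor
    · intro h; rw [h]
    · intro h; exact mul_left_cancel₀ (inv_ne_zero hpos.ne') h
  have hnorm : ‖‖c1‖⁻¹ • c1‖ = 1 := by
    rw [norm_smul, norm_inv, norm_norm, inv_mul_cancel₀ hpos.ne']
  refine ⟨‖c1‖⁻¹ • c1, ‖c1‖⁻¹ * b0, hnorm, L.smul_mem _ hc1L, ?_, hG', ?_⟩
  · intro x hx
    rw [inner_smul_left, hin x (hSL x hx)]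
    simp only [conj_trivial]
    exact mul_le_mul_of_nonneg_left (hle x hx) (by positivity)
  · apply perp_eq _ hL hG2 (L.smul_mem _ hc1L)
      (by intro h; rw [h, norm_zero] at hnorm; exact zero_ne_one hnorm)
    · intro v hv
      have hle' : vectorSpan ℝ G ≤ (ℝ ∙ (‖c1‖⁻¹ • c1))ᗮ := by
        rw [vectorSpan_def, Submodule.span_le]
        rintro _ ⟨y, hy, z, hz, rfl⟩
        simp only [SetLike.mem_coe]
        rw [Submodule.mem_orthogonal_singleton_iff_inner_right, vsub_eq_sub, inner_sub_right]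
        rw [hG'] at hy hz
        rw [hy.2, hz.2, sub_self]
      have := hle' hv
      rwa [Submodule.mem_orthogonal_singleton_iff_inner_right] at this
    · exact vectorSpan_mono ℝ hG.2.1

lemma facetData_exists {S : Set (E n)} (h0 : (0 : E n) ∈ S)
    (hL : finrank ℝ (vectorSpan ℝ S) = 3) (hfe : FaciallyExposed S) {G : Set (E n)}
    (hG : IsFace S G) (hne : G.Nonempty) (hG2 : dimSet G = 2) :
    ∃ (m : ℕ) (c z : E n), FacetData S (vectorSpan ℝ S) (1 / ((m : ℝ) + 1)) G c z := by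
  obtain ⟨c, b, hc, hcL, hle, hGeq, hV⟩ := facet_normal h0 hL hfe hG hne hG2
  obtain ⟨z, hz, ε, hε, hrel⟩ := exists_relint hG.1 hne
  obtain ⟨m, hm⟩ := exists_nat_one_div_lt hε
  have hzb : inner ℝ c z = b := by rw [hGeq] at hz; exact hz.2
  refine ⟨m, c, z, hc, hcL, ?_, ?_, ?_⟩
  · intro x hx; rw [hzb]; exact hle x hx
  · rw [hzb]; exact hGeq
  · intro v hv hcv hvn
    apply hG.2.1
    apply hrel v _ (hvn.trans hm.le)
    rw [hV]
    exact ⟨Submodule.mem_orthogonal_singleton_iff_inner_right.mpr hcv, hv⟩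

lemma facetData_key {S : Set (E n)} {L : Submodule ℝ (E n)} {ε : ℝ} (hε : 0 < ε)
    {G G' : Set (E n)} {c z c' z' : E n} (h : FacetData S L ε G c z)
    (h' : FacetData S L ε G' c' z') :
    ε * ‖c' - inner ℝ c c' • c‖ ≤ inner ℝ c' (z' - z) := by
  obtain ⟨hc, hcL, hle, hG, hrel⟩ := h
  obtain ⟨hc', hcL', hle', hG', hrel'⟩ := h'
  set v : E n := c' - inner ℝ c c' • c with hv
  have hvL : v ∈ L := L.sub_mem hcL' (L.smul_mem _ hcL)
  have hcv : inner ℝ c v = 0 := by
    rw [hv, inner_sub_right, inner_smul_right, real_inner_self_eq_norm_sq, hc]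
    ring
  have hz'S : inner ℝ c' z ≤ inner ℝ c' z' := by
    have := hrel 0 L.zero_mem (by simp) (by simpa using hε.le)
    rw [add_zero] at this
    exact hle' z this
  by_cases hv0 : v = 0
  · rw [hv0, norm_zero, mul_zero, inner_sub_right]; linarith
  have hpos : 0 < ‖v‖ := norm_pos_iff.mpr hv0
  have h1 := hrel ((ε / ‖v‖) • v) (L.smul_mem _ hvL) (by rw [inner_smul_right, hcv, mul_zero])
    (by rw [norm_smul, Real.norm_eq_abs, abs_of_pos (by positivity), div_mul_cancel₀ _ hpos.ne'])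
  have h2 := hle' _ h1
  rw [inner_add_right, inner_smul_right] at h2
  have h3 : inner ℝ c' v = ‖v‖ ^ 2 := by
    rw [← real_inner_self_eq_norm_sq]
    conv_rhs => rw [hv, inner_sub_left, inner_smul_left, ← hv, hcv]
    simp
  rw [h3] at h2
  have h4 : ε / ‖v‖ * ‖v‖ ^ 2 = ε * ‖v‖ := by field_simp
  rw [h4] at h2
  rw [inner_sub_right]; linarith

lemma facetData_sep {S : Set (E n)} {L : Submodule ℝ (E n)} {ε : ℝ} (hε : 0 < ε)
    {G G' : Set (E n)} {c z c' z' : E n} (h : FacetData S L ε G c z)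
    (h' : FacetData S L ε G' c' z') (h1 : ‖c - c'‖ < 1) (h2 : ‖z - z'‖ < ε) : G = G' := by
  have k1 := facetData_key hε h h'
  have k2 := facetData_key hε h' h
  obtain ⟨hc, hcL, hle, hG, hrel⟩ := h
  obtain ⟨hc', hcL', hle', hG', hrel'⟩ := h'
  set κ : ℝ := inner ℝ c c' with hκ
  have hκ' : inner ℝ c' c = κ := by rw [real_inner_comm]
  rw [hκ'] at k2
  have hd : ‖c - c'‖ ^ 2 = 2 - 2 * κ := by
    rw [norm_sub_sq_real, hc, hc', ← hκ]; ring
  have hr1 : ‖c' - κ • c‖ ^ 2 = 1 - κ ^ 2 := by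
    rw [norm_sub_sq_real, norm_smul, inner_smul_right, hc, hc', hκ', Real.norm_eq_abs, mul_one,
      sq_abs]
    ring
  have hr2 : ‖c - κ • c'‖ ^ 2 = 1 - κ ^ 2 := by
    rw [norm_sub_sq_real, norm_smul, inner_smul_right, hc, hc', ← hκ, Real.norm_eq_abs, mul_one,
      sq_abs]
    ring
  have hκpos : 1 / 2 < κ := by nlinarith [norm_nonneg (c - c')]
  have hκle : κ ≤ 1 := by nlinarith [sq_nonneg ‖c - c'‖]
  rcases eq_or_lt_of_le hκle with h1' | hlt
  · -- equal normals
    have hcc : c = c' := by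
      have : ‖c - c'‖ ^ 2 = 0 := by rw [hd, h1']; ring
      rw [sq_eq_zero_iff, norm_eq_zero, sub_eq_zero] at this
      exact this
    subst hcc
    have hz : z ∈ S := by
      have := hrel 0 L.zero_mem (by simp) (by simpa using hε.le)
      rwa [add_zero] at this
    have hz' : z' ∈ S := by
      have := hrel' 0 L.zero_mem (by simp) (by simpa using hε.le)
      rwa [add_zero] at this
    have : inner ℝ c z = inner ℝ c z' := le_antisymm (hle' z hz) (hle z' hz')
    rw [hG, hG', this]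
  · exfalso
    set r : ℝ := ‖c' - κ • c‖ with hr
    have hrr : ‖c - κ • c'‖ = r := by
      have : ‖c - κ • c'‖ ^ 2 = r ^ 2 := by rw [hr1, hr2]
      exact (pow_left_inj₀ (norm_nonneg _) (norm_nonneg _) two_ne_zero).mp this
    rw [hrr] at k2
    have hr0 : 0 ≤ r := norm_nonneg _
    have hsum : 2 * ε * r ≤ inner ℝ (c' - c) (z' - z) := by
      have e1 : inner ℝ (c' - c) (z' - z) = inner ℝ c' (z' - z) + inner ℝ c (z - z') := by
        rw [inner_sub_left, inner_sub_right, inner_sub_right, inner_sub_right]; ring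
      rw [e1]; linarith
    have hcs : inner ℝ (c' - c) (z' - z) ≤ ‖c - c'‖ * ‖z - z'‖ := by
      have := real_inner_le_norm (c' - c) (z' - z)
      rwa [norm_sub_rev c' c, norm_sub_rev z' z] at this
    have h5 : (2 * ε * r) ^ 2 ≤ (‖c - c'‖ * ‖z - z'‖) ^ 2 :=
      pow_le_pow_left₀ (by positivity) (hsum.trans hcs) 2
    have h6 : (‖c - c'‖ * ‖z - z'‖) ^ 2 = (2 - 2 * κ) * ‖z - z'‖ ^ 2 := by rw [mul_pow, hd]
    have h7 : (2 * ε * r) ^ 2 = 4 * ε ^ 2 * (1 - κ ^ 2) := by rw [mul_pow, hr1]; ring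
    rw [h6, h7] at h5
    have h8 : ‖z - z'‖ ^ 2 < ε ^ 2 := pow_lt_pow_left₀ h2 (norm_nonneg _) two_ne_zero
    have h9 : 0 < 1 - κ := by linarith
    have h10 : 4 * ε ^ 2 * (1 - κ ^ 2) = (1 - κ) * (4 * ε ^ 2 * (1 + κ)) := by ring
    have h11 : (2 - 2 * κ) * ‖z - z'‖ ^ 2 = (1 - κ) * (2 * ‖z - z'‖ ^ 2) := by ring
    rw [h10, h11] at h5
    have h12 := le_of_mul_le_mul_left h5 h9
    nlinarith [sq_nonneg ε, mul_pos hε hε]

theorem countable_facets {S : Set (E n)} (h0 : (0 : E n) ∈ S)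
    (hL : finrank ℝ (vectorSpan ℝ S) = 3) (hfe : FaciallyExposed S) :
    {G : Set (E n) | IsFace S G ∧ G.Nonempty ∧ dimSet G = 2}.Countable := by
  classical
  set L := vectorSpan ℝ S with hLdef
  have hsub : {G : Set (E n) | IsFace S G ∧ G.Nonempty ∧ dimSet G = 2} ⊆
      ⋃ m : ℕ, {G | ∃ c z : E n, FacetData S L (1 / ((m : ℝ) + 1)) G c z} := by
    rintro G ⟨hG, hne, h2⟩
    obtain ⟨m, c, z, h⟩ := facetData_exists h0 hL hfe hG hne h2
    exact Set.mem_iUnion.mpr ⟨m, c, z, h⟩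
  refine Set.Countable.mono hsub (Set.countable_iUnion fun m => ?_)
  set ε : ℝ := 1 / ((m : ℝ) + 1) with hε
  have hεpos : 0 < ε := by positivity
  let p : Set (E n) → E n × E n := fun G =>
    if h : ∃ q : E n × E n, FacetData S L ε G q.1 q.2 then h.choose else 0
  have hp : ∀ G ∈ {G | ∃ c z : E n, FacetData S L ε G c z},
      FacetData S L ε G (p G).1 (p G).2 := by
    rintro G ⟨c, z, h⟩
    have hex : ∃ q : E n × E n, FacetData S L ε G q.1 q.2 := ⟨(c, z), h⟩
    simp only [p, dif_pos hex]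
    exact hex.choose_spec
  set δ : ℝ := min 1 ε / 2 with hδ
  have hδpos : 0 < δ := by positivity
  refine Set.PairwiseDisjoint.countable_of_isOpen (s := fun G => Metric.ball (p G) δ) ?_
    (fun G _ => Metric.isOpen_ball) (fun G _ => ⟨p G, Metric.mem_ball_self hδpos⟩)
  intro G hG G' hG' hne
  rw [Function.onFun, Set.disjoint_left]
  intro q hq hq'
  apply hne
  have hdist : dist (p G) (p G') < min 1 ε := by
    calc dist (p G) (p G') ≤ dist (p G) q + dist q (p G') := dist_triangle _ _ _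
      _ < δ + δ := by
        apply add_lt_add
        · rw [dist_comm]; exact Metric.mem_ball.mp hq
        · exact Metric.mem_ball.mp hq'
      _ = min 1 ε := by rw [hδ]; ring
  rw [Prod.dist_eq, max_lt_iff, dist_eq_norm, dist_eq_norm] at hdist
  exact facetData_sep hεpos (hp G hG) (hp G' hG')
    (hdist.1.trans_le (min_le_left _ _)) (hdist.2.trans_le (min_le_right _ _))

end Pool.Agent.R788.FE
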