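import Mathlib
import Pool.Agent.R788.FE.Neg2

/-!
The key step: an extreme point of a facet lies in another facet when the polar is facially
exposed.
-/

open Module Submodule

namespace Pool.Agent.R788.FE

variable {n : ℕ}

/-- the hypotheses leading to a contradiction -/
structure Bad (S : Set (E n)) : Prop where
  conv : Convex ℝ S
  closed : IsClosed S
  zero : (0 : E n) ∈ S
  sig : signature S = {0, 2, 3}
  fe : FaciallyExposed S
  pfe : FaciallyExposed (polarSet S)

lemma face_of_functional {S : Set (E n)} (hS : Convex ℝ S) {y : E n} {b : ℝ}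
    (h : ∀ s ∈ S, inner ℝ y s ≤ b) : IsFace S {s | s ∈ S ∧ inner ℝ y s = b} := by
  refine ⟨?_, fun s hs => hs.1, ?_⟩
  · rintro s ⟨hs, hs'⟩ t ⟨ht, ht'⟩ α β hα hβ hαβ
    refine ⟨hS hs ht hα hβ hαβ, ?_⟩
    rw [inner_add_right, inner_smul_right, inner_smul_right, hs', ht', ← add_mul, hαβ, one_mul]
  · rintro a ha c hc ⟨p, ⟨α, β, hα, hβ, hαβ, rfl⟩, hp, hp'⟩
    rw [inner_add_right, inner_smul_right, inner_smul_right] at hp'
    have h1 := h a ha
    have h2 := h c hc
    have hβ' : β = 1 - α := by linarith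
    subst hβ'
    refine ⟨⟨ha, ?_⟩, ⟨hc, ?_⟩⟩
    · by_contra hne
      have : inner ℝ y a < b := lt_of_le_of_ne h1 hne
      nlinarith
    · by_contra hne
      have : inner ℝ y c < b := lt_of_le_of_ne h2 hne
      nlinarith

lemma Bad.dims {S : Set (E n)} (h : Bad S) {G : Set (E n)} (hG : IsFace S G)
    (hne : G.Nonempty) : dimSet G = 0 ∨ dimSet G = 2 ∨ dimSet G = 3 := by
  have : dimSet G ∈ signature S := ⟨G, hG, hne, rfl⟩
  rw [h.sig] at this
  simpa using this

lemma Bad.finrank_eq {S : Set (E n)} (h : Bad S) : finrank ℝ (vectorSpan ℝ S) = 3 := by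
  have h3 : 3 ∈ signature S := by rw [h.sig]; simp
  obtain ⟨F, hF, hne, hd⟩ := h3
  have hSS : IsFace S S := ⟨h.conv, subset_rfl, fun x hx y hy _ => ⟨hx, hy⟩⟩
  have h1 := h.dims hSS ⟨0, h.zero⟩
  have h2 : dimSet F ≤ dimSet S := Submodule.finrank_mono (vectorSpan_mono ℝ hF.2.1)
  unfold dimSet at *
  omega

lemma Bad.subset {S : Set (E n)} (h : Bad S) : ∀ x ∈ S, x ∈ vectorSpan ℝ S := by
  intro x hx
  have := vsub_mem_vectorSpan ℝ hx h.zero
  simpa using this

lemma eq_of_dim_zero {G : Set (E n)} (h : dimSet G = 0) {x y : E n} (hx : x ∈ G) (hy : y ∈ G) :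
    x = y := by
  unfold dimSet at h
  have h1 : vectorSpan ℝ G = ⊥ := Submodule.finrank_eq_zero.mp h
  have h2 := vsub_mem_vectorSpan ℝ hx hy
  rw [h1, Submodule.mem_bot, vsub_eq_sub, sub_eq_zero] at h2
  exact h2

lemma Bad.dim_two {S : Set (E n)} (h : Bad S) {G : Set (E n)} (hG : IsFace S G) {x x' : E n}
    (hx : x ∈ G) (hx' : x' ∈ G) (hne : x ≠ x') {y : E n} (hy : y ∈ vectorSpan ℝ S) (hy0 : y ≠ 0)
    {b : ℝ} (hyG : ∀ g ∈ G, inner ℝ y g = b) : dimSet G = 2 := by
  rcases h.dims hG ⟨x, hx⟩ with h0 | h2 | h3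
  · exact absurd (eq_of_dim_zero h0 hx hx') hne
  · exact h2
  · exfalso
    have hle : vectorSpan ℝ G ≤ vectorSpan ℝ S := vectorSpan_mono ℝ hG.2.1
    have heq : vectorSpan ℝ G = vectorSpan ℝ S :=
      Submodule.eq_of_le_of_finrank_eq hle (by rw [h.finrank_eq]; exact h3)
    have horth : vectorSpan ℝ G ≤ (ℝ ∙ y)ᗮ := by
      rw [vectorSpan_def, Submodule.span_le]
      rintro _ ⟨p, hp, q, hq, rfl⟩
      refine Submodule.mem_orthogonal_singleton_iff_inner_right.mpr ?_
      show inner ℝ y (p - q) = 0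
      rw [inner_sub_right, hyG p hp, hyG q hq, sub_self]
    rw [heq] at horth
    have := Submodule.mem_orthogonal_singleton_iff_inner_right.mp (horth hy)
    rw [inner_self_eq_zero] at this
    exact hy0 this

/-- the section of the polar attached to `x` -/
def Ksec (S : Set (E n)) (x : E n) : Set (E n) :=
  {y | y ∈ vectorSpan ℝ S ∧ (∀ s ∈ S, inner ℝ y s ≤ 1) ∧ inner ℝ y x = 1}

lemma Ksec_closed (S : Set (E n)) (x : E n) : IsClosed (Ksec S x) := by
  have h1 : IsClosed {y : E n | y ∈ vectorSpan ℝ S} :=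
    (vectorSpan ℝ S).closed_of_finiteDimensional
  have h2 : IsClosed {y : E n | ∀ s ∈ S, inner ℝ y s ≤ 1} := by
    simp only [Set.ofPred_forall]
    exact isClosed_iInter fun s => isClosed_iInter fun _ =>
      isClosed_le (by fun_prop) continuous_const
  have h3 : IsClosed {y : E n | inner ℝ y x = 1} := isClosed_eq (by fun_prop) continuous_const
  exact h1.inter (h2.inter h3)

/-- existence of extreme points of the section -/
lemma exists_extreme {S : Set (E n)} {x : E n} {p0 : E n} {ε : ℝ} (hε : 0 < ε)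
    (hp : ∀ v ∈ vectorSpan ℝ S, ‖v‖ ≤ ε → p0 + v ∈ S) (hne : (Ksec S x).Nonempty) :
    ∃ y ∈ Ksec S x, (∀ a ∈ Ksec S x, ∀ b ∈ Ksec S x, y ∈ openSegment ℝ a b → a = y ∧ b = y) ∧
      ∀ y' ∈ Ksec S x, inner ℝ p0 y' ≤ inner ℝ p0 y := by
  obtain ⟨y0, hy0⟩ := hne
  have hbound : ∀ y ∈ Ksec S x, ε * ‖y‖ ≤ 1 - inner ℝ p0 y := by
    rintro y ⟨hyL, hyS, -⟩
    by_cases hy : y = 0
    · subst hy; simp
    have hpos : 0 < ‖y‖ := norm_pos_iff.mpr hy
    have h1 := hyS _ (hp ((ε / ‖y‖) • y) ((vectorSpan ℝ S).smul_mem _ hyL)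
      (by rw [norm_smul, Real.norm_eq_abs, abs_of_pos (by positivity),
        div_mul_cancel₀ _ hpos.ne']))
    rw [inner_add_right, inner_smul_right, real_inner_self_eq_norm_sq, real_inner_comm] at h1
    have h4 : ε / ‖y‖ * ‖y‖ ^ 2 = ε * ‖y‖ := by field_simp
    rw [h4] at h1
    linarith
  set C : Set (E n) := {y | y ∈ Ksec S x ∧ inner ℝ p0 y0 ≤ inner ℝ p0 y} with hC
  have hcont : Continuous (fun y : E n => (inner ℝ p0 y : ℝ)) := by fun_prop
  have hCc : IsCompact C := by
    apply Metric.isCompact_of_isClosed_isBounded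
    · exact (Ksec_closed S x).inter (isClosed_le continuous_const hcont)
    · refine (Metric.isBounded_iff_subset_closedBall (0 : E n)).mpr
        ⟨(1 - inner ℝ p0 y0) / ε, ?_⟩
      rintro y ⟨hy, hy'⟩
      rw [mem_closedBall_zero_iff, le_div_iff₀ hε]
      have := hbound y hy
      linarith
  obtain ⟨y1, hy1, hmax⟩ := hCc.exists_isMaxOn ⟨y0, hy0, le_rfl⟩ hcont.continuousOn
  have hmax' : ∀ y ∈ Ksec S x, inner ℝ p0 y ≤ inner ℝ p0 y1 := by
    intro y hy
    by_cases hyc : inner ℝ p0 y0 ≤ inner ℝ p0 y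
    · exact hmax (show y ∈ C from ⟨hy, hyc⟩)
    · exact (not_le.mp hyc).le.trans hy1.2
  set K' : Set (E n) := {y | y ∈ Ksec S x ∧ inner ℝ p0 y = inner ℝ p0 y1} with hK'
  have hK'c : IsCompact K' := by
    apply hCc.of_isClosed_subset
    · exact (Ksec_closed S x).inter (isClosed_eq hcont continuous_const)
    · rintro y ⟨hy, hy'⟩
      exact ⟨hy, by rw [hy']; exact hy1.2⟩
  obtain ⟨y, hy⟩ := hK'c.extremePoints_nonempty ⟨y1, hy1.1, rfl⟩
  rw [mem_extremePoints] at hy
  refine ⟨y, hy.1.1, ?_, ?_⟩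
  · rintro a ha b hb hab
    have hab' := hab
    obtain ⟨α, β, hα, hβ, hαβ, hyab⟩ := hab
    have h1 := hmax' a ha
    have h2 := hmax' b hb
    have h3 : α * inner ℝ p0 a + β * inner ℝ p0 b = inner ℝ p0 y1 := by
      rw [← hy.1.2, ← hyab, inner_add_right, inner_smul_right, inner_smul_right]
    have hβ' : β = 1 - α := by linarith
    subst hβ'
    refine hy.2 a ⟨ha, ?_⟩ b ⟨hb, ?_⟩ hab'
    · by_contra hne
      have : inner ℝ p0 a < inner ℝ p0 y1 := lt_of_le_of_ne h1 hne
      nlinarith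
    · by_contra hne
      have : inner ℝ p0 b < inner ℝ p0 y1 := lt_of_le_of_ne h2 hne
      nlinarith
  · intro y' hy'
    rw [hy.1.2]
    exact hmax' y' hy'

lemma Bad.facet_of_extreme {S : Set (E n)} (h : Bad S) {x : E n} (hxS : x ∈ S) {y y2 : E n}
    (hy : y ∈ Ksec S x)
    (hext : ∀ a ∈ Ksec S x, ∀ b ∈ Ksec S x, y ∈ openSegment ℝ a b → a = y ∧ b = y)
    (hy2 : y2 ∈ Ksec S x) (hne : y2 ≠ y) :
    IsFace S {s | s ∈ S ∧ inner ℝ y s = 1} ∧ dimSet {s | s ∈ S ∧ inner ℝ y s = 1} = 2 := by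
  set L := vectorSpan ℝ S with hL
  have hyne : y ≠ 0 := by
    rintro rfl
    have := hy.2.2
    rw [inner_zero_left] at this
    exact zero_ne_one this
  have hKpol : ∀ a ∈ Ksec S x, a ∈ polarSet S := by
    rintro a ⟨-, ha, -⟩ s hs
    rw [real_inner_comm]; exact ha s hs
  have hpolconv : Convex ℝ (polarSet S) := by
    intro a ha b hb α β hα hβ hαβ s hs
    rw [inner_add_right, inner_smul_right, inner_smul_right]
    have h1 := ha s hs
    have h2 := hb s hs
    nlinarith
  set Φ : Set (E n) := {p | p ∈ polarSet S ∧ ∀ l ∈ L, inner ℝ l (p - y) = 0} with hΦ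
  have hproj : ∀ (a : E n), ∀ l ∈ L, inner ℝ l (L.starProjection a) = inner ℝ l a := by
    intro a l hl
    have := Submodule.starProjection_inner_eq_zero (K := L) a l hl
    rw [inner_sub_left] at this
    rw [real_inner_comm, real_inner_comm a l]
    linarith
  have hΦface : IsFace (polarSet S) Φ := by
    refine ⟨?_, fun p hp => hp.1, ?_⟩
    · rintro p ⟨hp, hp'⟩ q ⟨hq, hq'⟩ α β hα hβ hαβ
      refine ⟨hpolconv hp hq hα hβ hαβ, fun l hl => ?_⟩
      have e1 : α • p + β • q - y = α • (p - y) + β • (q - y) := by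
        have : α = 1 - β := by linarith
        subst this
        module
      rw [e1, inner_add_right, inner_smul_right, inner_smul_right, hp' l hl, hq' l hl]
      ring
    · rintro a ha b hb ⟨p, ⟨α, β, hα, hβ, hαβ, hpab⟩, hp, hp'⟩
      have hxL : x ∈ L := h.subset x hxS
      have hpx : inner ℝ x p = 1 := by
        have := hp' x hxL
        rw [inner_sub_right, real_inner_comm y x, hy.2.2] at this
        linarith
      have hax : inner ℝ x a = 1 ∧ inner ℝ x b = 1 := by
        have h1 := ha x hxS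
        have h2 := hb x hxS
        rw [← hpab, inner_add_right, inner_smul_right, inner_smul_right] at hpx
        have hβ' : β = 1 - α := by linarith
        subst hβ'
        constructor
        · by_contra hne
          have : inner ℝ x a < 1 := lt_of_le_of_ne h1 hne
          nlinarith
        · by_contra hne
          have : inner ℝ x b < 1 := lt_of_le_of_ne h2 hne
          nlinarith
      have hPK : ∀ q ∈ polarSet S, inner ℝ x q = 1 → L.starProjection q ∈ Ksec S x := by
        intro q hq hqx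
        refine ⟨L.starProjection_apply_mem q, fun s hs => ?_, ?_⟩
        · rw [real_inner_comm, hproj q s (h.subset s hs)]; exact hq s hs
        · rw [real_inner_comm, hproj q x hxL]; exact hqx
      have hseg : y ∈ openSegment ℝ (L.starProjection a) (L.starProjection b) := by
        refine ⟨α, β, hα, hβ, hαβ, ?_⟩
        set d : E n := α • L.starProjection a + β • L.starProjection b - y with hd
        have hdL : d ∈ L := L.sub_mem (L.add_mem (L.smul_mem _ (L.starProjection_apply_mem a))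
          (L.smul_mem _ (L.starProjection_apply_mem b))) hy.1
        have hd0 : inner ℝ d d = 0 := by
          conv_lhs => rw [hd, inner_sub_right, inner_add_right, inner_smul_right, inner_smul_right,
            hproj a _ hdL, hproj b _ hdL]
          have := hp' d hdL
          rw [← hpab, inner_sub_right, inner_add_right, inner_smul_right, inner_smul_right] at this
          exact this
        rw [inner_self_eq_zero, hd, sub_eq_zero] at hd0
        exact hd0
      obtain ⟨e1, e2⟩ := hext _ (hPK a ha hax.1) _ (hPK b hb hax.2) hseg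
      refine ⟨⟨ha, fun l hl => ?_⟩, ⟨hb, fun l hl => ?_⟩⟩
      · rw [inner_sub_right, ← hproj a l hl, e1, sub_self]
      · rw [inner_sub_right, ← hproj b l hl, e2, sub_self]
  have h0pol : (0 : E n) ∈ polarSet S := by
    intro s _; rw [inner_zero_right]; exact zero_le_one
  have h0Φ : (0 : E n) ∉ Φ := by
    rintro ⟨-, h0⟩
    have := h0 y hy.1
    rw [zero_sub, inner_neg_right, neg_eq_zero, inner_self_eq_zero] at this
    exact hyne this
  have hyΦ : y ∈ Φ := ⟨hKpol y hy, fun l _ => by rw [sub_self, inner_zero_right]⟩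
  obtain ⟨w, β, hw, hle, hΦeq⟩ := h.pfe Φ hΦface ⟨y, hyΦ⟩ (fun e => h0Φ (by rw [e]; exact h0pol))
  have hβ0 : 0 ≤ β := by have := hle 0 h0pol; rwa [inner_zero_right] at this
  have hβ : 0 < β := by
    rcases hβ0.lt_or_eq with hlt | heq
    · exact hlt
    · exfalso
      apply h0Φ
      rw [hΦeq]
      exact ⟨h0pol, by rw [inner_zero_right]; exact heq⟩
  have hx'S : β⁻¹ • w ∈ S := by
    apply bipolar h.conv h.closed h.zero
    intro p hp
    rw [inner_smul_left]
    simp only [conj_trivial]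
    rw [inv_mul_le_iff₀ hβ, mul_one]
    exact hle p hp
  have hwy : inner ℝ w y = β := by rw [hΦeq] at hyΦ; exact hyΦ.2
  have hx'y : inner ℝ y (β⁻¹ • w) = 1 := by
    rw [inner_smul_right, real_inner_comm, hwy, inv_mul_cancel₀ hβ.ne']
  have hxx' : x ≠ β⁻¹ • w := by
    intro e
    have h1 : inner ℝ w y2 = β := by
      have h2 := hy2.2.2
      rw [e, inner_smul_right, real_inner_comm] at h2
      field_simp at h2
      exact h2
    have h3 : y2 ∈ Φ := by rw [hΦeq]; exact ⟨hKpol y2 hy2, h1⟩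
    have h4 := h3.2 (y2 - y) (L.sub_mem hy2.1 hy.1)
    rw [inner_self_eq_zero, sub_eq_zero] at h4
    exact hne h4
  have hface := face_of_functional h.conv (y := y) (b := 1) hy.2.1
  exact ⟨hface, h.dim_two hface (x := x) (x' := β⁻¹ • w) ⟨hxS, hy.2.2⟩ ⟨hx'S, hx'y⟩ hxx' hy.1 hyne
    (fun g hg => hg.2)⟩

end Pool.Agent.R788.FE
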