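import Mathlib
import Pool.Agent.R788.FE.Neg3

/-!
An extreme point (other than the origin) of a facet lies in another facet.
-/

open Module Submodule

namespace Pool.Agent.R788.FE

variable {n : ℕ}

lemma exists_ne_of_dim_two {F : Set (E n)} (hF : dimSet F = 2) (x : E n) : ∃ y ∈ F, y ≠ x := by
  by_contra hcon
  push Not at hcon
  have h1 : vectorSpan ℝ F = ⊥ := by
    rw [eq_bot_iff, vectorSpan_def, Submodule.span_le]
    rintro _ ⟨p, hp, q, hq, rfl⟩
    show (p - q : E n) ∈ (⊥ : Submodule ℝ (E n))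
    rw [hcon p hp, hcon q hq, sub_self]
    exact Submodule.zero_mem _
  unfold dimSet at hF
  rw [h1, finrank_bot] at hF
  omega

/-- the exposing functional of an extreme point different from the origin, normalised -/
lemma Bad.point_functional {S : Set (E n)} (h : Bad S) {x : E n} (hxS : x ∈ S) (hx0 : x ≠ 0)
    (hmin : minFace S x = {x}) :
    ∃ y ∈ Ksec S x, ∀ s ∈ S, s ≠ x → inner ℝ y s < 1 := by
  set L := vectorSpan ℝ S with hL
  have hface := minFace_isFace h.conv hxS
  rw [hmin] at hface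
  have hneS : ({x} : Set (E n)) ≠ S := by
    intro e
    have := h.zero
    rw [← e, Set.mem_singleton_iff] at this
    exact hx0 this.symm
  obtain ⟨c, b, hc, hle, heq⟩ := h.fe _ hface ⟨x, rfl⟩ hneS
  have hcx : inner ℝ c x = b := by
    have : x ∈ ({x} : Set (E n)) := rfl
    rw [heq] at this
    exact this.2
  have hb0 : 0 ≤ b := by have := hle 0 h.zero; rwa [inner_zero_right] at this
  have hb : 0 < b := by
    rcases hb0.lt_or_eq with hlt | he
    · exact hlt
    · exfalso
      have : (0 : E n) ∈ ({x} : Set (E n)) := by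
        rw [heq]
        exact ⟨h.zero, by rw [inner_zero_right]; exact he⟩
      exact hx0 (Set.mem_singleton_iff.mp this).symm
  have hin : ∀ s ∈ S, inner ℝ (b⁻¹ • L.starProjection c) s = b⁻¹ * inner ℝ c s := by
    intro s hs
    rw [inner_smul_left]
    simp only [conj_trivial]
    congr 1
    have := Submodule.starProjection_inner_eq_zero (K := L) c s (h.subset s hs)
    rw [inner_sub_left] at this
    linarith
  refine ⟨b⁻¹ • L.starProjection c, ⟨L.smul_mem _ (L.starProjection_apply_mem c), ?_, ?_⟩, ?_⟩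
  · intro s hs
    rw [hin s hs, inv_mul_le_iff₀ hb, mul_one]
    exact hle s hs
  · rw [hin x hxS, hcx, inv_mul_cancel₀ hb.ne']
  · intro s hs hsx
    rw [hin s hs, inv_mul_lt_iff₀ hb, mul_one]
    refine lt_of_le_of_ne (hle s hs) fun e => hsx ?_
    have : s ∈ ({x} : Set (E n)) := by rw [heq]; exact ⟨hs, e⟩
    exact Set.mem_singleton_iff.mp this

lemma Bad.exists_other_facet {S : Set (E n)} (h : Bad S) {F : Set (E n)} (hF : IsFace S F)
    (hF2 : dimSet F = 2) {x : E n} (hxF : x ∈ F) (hx0 : x ≠ 0) (hmin : minFace S x = {x}) :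
    ∃ G : Set (E n), IsFace S G ∧ G.Nonempty ∧ dimSet G = 2 ∧ x ∈ G ∧ G ≠ F := by
  have hxS : x ∈ S := hF.2.1 hxF
  obtain ⟨yx, hyx, hyx1⟩ := h.point_functional hxS hx0 hmin
  obtain ⟨c, b, hc1, hcL, hcle, hFeq, hV⟩ :=
    facet_normal h.zero h.finrank_eq h.fe hF ⟨x, hxF⟩ hF2
  obtain ⟨r, hrS, ε, hε, hrel⟩ := exists_relint h.conv ⟨0, h.zero⟩
  set L := vectorSpan ℝ S with hL
  have hcx : inner ℝ c x = b := by rw [hFeq] at hxF; exact hxF.2
  have hc0 : c ≠ 0 := by rintro rfl; rw [norm_zero] at hc1; exact zero_ne_one hc1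
  have hb0 : 0 ≤ b := by have := hcle 0 h.zero; rwa [inner_zero_right] at this
  rcases hb0.lt_or_eq with hb | hb
  · -- `0 ∉ F`
    have h0F : (0 : E n) ∉ F := by
      rw [hFeq]
      rintro ⟨-, h0⟩
      rw [inner_zero_right] at h0
      exact hb.ne h0
    have hyFin : ∀ s, inner ℝ (b⁻¹ • c) s = b⁻¹ * inner ℝ c s := by
      intro s
      rw [inner_smul_left]
      simp only [conj_trivial]
    have hyF : b⁻¹ • c ∈ Ksec S x := by
      refine ⟨L.smul_mem _ hcL, fun s hs => ?_, ?_⟩
      · rw [hyFin s, inv_mul_le_iff₀ hb, mul_one]; exact hcle s hs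
      · rw [hyFin x, hcx, inv_mul_cancel₀ hb.ne']
    obtain ⟨x2, hx2F, hx2⟩ := exists_ne_of_dim_two hF2 x
    have hyxF : yx ≠ b⁻¹ • c := by
      intro e
      have h1 := hyx1 x2 (hF.2.1 hx2F) hx2
      rw [e, hyFin x2] at h1
      rw [hFeq] at hx2F
      rw [hx2F.2, inv_mul_cancel₀ hb.ne'] at h1
      exact lt_irrefl _ h1
    set v : E n := yx - b⁻¹ • c with hv
    have hv0 : v ≠ 0 := sub_ne_zero.mpr hyxF
    have hvL : v ∈ L := L.sub_mem hyx.1 hyF.1
    have hvx : inner ℝ v x = 0 := by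
      rw [hv, inner_sub_left, hyx.2.2, hyF.2.2, sub_self]
    by_cases hcase : ∀ s ∈ S, inner ℝ v s ≤ 0
    · refine ⟨{s | s ∈ S ∧ inner ℝ v s = 0}, face_of_functional h.conv hcase, ⟨x, hxS, hvx⟩, ?_,
        ⟨hxS, hvx⟩, ?_⟩
      · exact h.dim_two (face_of_functional h.conv hcase) (x := x) (x' := 0) ⟨hxS, hvx⟩
          ⟨h.zero, by rw [inner_zero_right]⟩ hx0 hvL hv0 (fun g hg => hg.2)
      · intro e
        apply h0F
        rw [← e]
        exact ⟨h.zero, by rw [inner_zero_right]⟩
    · push Not at hcase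
      obtain ⟨s0, hs0, hA⟩ := hcase
      set A : ℝ := inner ℝ v s0 with hAdef
      set B : ℝ := inner ℝ v r with hBdef
      set δ : ℝ := A / (2 * (A + |B|)) with hδ
      have hABpos : 0 < A + |B| := by positivity
      have hδpos : 0 < δ := by positivity
      have hδle : δ ≤ 1 / 2 := by
        rw [hδ, div_le_div_iff₀ (by positivity) (by norm_num)]
        nlinarith [abs_nonneg B]
      have hδeq : δ * (A + |B|) = A / 2 := by
        rw [hδ]; field_simp
      set p0 : E n := (1 - δ) • s0 + δ • r with hp0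
      have hvp0 : 0 < inner ℝ v p0 := by
        rw [hp0, inner_add_right, inner_smul_right, inner_smul_right, ← hAdef, ← hBdef]
        have h1 : -|B| ≤ B := neg_abs_le B
        nlinarith
      have hprel : ∀ w ∈ L, ‖w‖ ≤ δ * ε → p0 + w ∈ S := by
        intro w hw hwn
        have h1 : r + δ⁻¹ • w ∈ S := by
          apply hrel _ (L.smul_mem _ hw)
          rw [norm_smul, norm_inv, Real.norm_eq_abs, abs_of_pos hδpos, inv_mul_le_iff₀ hδpos]
          exact hwn
        have h2 := h.conv hs0 h1 (a := 1 - δ) (b := δ) (by linarith) hδpos.le (by ring)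
        convert! h2 using 1
        rw [hp0, smul_add, smul_smul, mul_inv_cancel₀ hδpos.ne', one_smul, add_assoc]
      obtain ⟨y, hy, hext, hmax⟩ := exists_extreme (x := x) (by positivity) hprel ⟨yx, hyx⟩
      have hyne : b⁻¹ • c ≠ y := by
        intro e
        have h1 := hmax yx hyx
        rw [← e] at h1
        have h2 : inner ℝ v p0 = inner ℝ p0 yx - inner ℝ p0 (b⁻¹ • c) := by
          rw [hv, inner_sub_left, real_inner_comm, real_inner_comm p0 (b⁻¹ • c)]
        linarith
      obtain ⟨hGf, hG2⟩ := h.facet_of_extreme hxS hy hext hyF hyne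
      refine ⟨{s | s ∈ S ∧ inner ℝ y s = 1}, hGf, ⟨x, hxS, hy.2.2⟩, hG2, ⟨hxS, hy.2.2⟩, ?_⟩
      intro e
      apply hyne
      set μ : ℝ := inner ℝ c y with hμ
      have hcc : inner ℝ c c = (1 : ℝ) := by
        rw [real_inner_self_eq_norm_sq, hc1]; norm_num
      set w : E n := y - μ • c with hw
      have hwL : w ∈ L := L.sub_mem hy.1 (L.smul_mem _ hcL)
      have hwc : inner ℝ c w = 0 := by
        rw [hw, inner_sub_right, inner_smul_right, hcc, ← hμ]; ring
      have hwV : w ∈ vectorSpan ℝ F := by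
        rw [hV]
        exact ⟨Submodule.mem_orthogonal_singleton_iff_inner_right.mpr hwc, hwL⟩
      have hyV : vectorSpan ℝ F ≤ (ℝ ∙ y)ᗮ := by
        rw [vectorSpan_def, Submodule.span_le]
        rintro _ ⟨p, hp, q, hq, rfl⟩
        refine Submodule.mem_orthogonal_singleton_iff_inner_right.mpr ?_
        show inner ℝ y (p - q) = 0
        rw [← e] at hp hq
        rw [inner_sub_right, hp.2, hq.2, sub_self]
      have hyw : inner ℝ y w = 0 :=
        Submodule.mem_orthogonal_singleton_iff_inner_right.mp (hyV hwV)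
      have hww : inner ℝ w w = (0 : ℝ) := by
        conv_lhs => rw [hw, inner_sub_left, inner_smul_left, ← hw]
        rw [hyw, hwc]; simp
      rw [inner_self_eq_zero, hw, sub_eq_zero] at hww
      have h1 := hy.2.2
      rw [hww, inner_smul_left, hcx] at h1
      simp only [conj_trivial] at h1
      rw [hww, eq_comm, ← one_mul b⁻¹, ← h1, mul_assoc, mul_inv_cancel₀ hb.ne', mul_one]
  · -- `0 ∈ F`
    have h0F : (0 : E n) ∈ F := by
      rw [hFeq]
      exact ⟨h.zero, by rw [inner_zero_right]; exact hb⟩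
    have hyc : yx + c ∈ Ksec S x := by
      refine ⟨L.add_mem hyx.1 hcL, fun s hs => ?_, ?_⟩
      · rw [inner_add_left]
        have h1 := hyx.2.1 s hs
        have h2 := hcle s hs
        linarith
      · rw [inner_add_left, hyx.2.2, hcx, ← hb, add_zero]
    obtain ⟨y, hy, hext, hmax⟩ := exists_extreme (x := x) hε hrel ⟨yx, hyx⟩
    have hy2 : ∃ y2 ∈ Ksec S x, y2 ≠ y := by
      by_cases e : yx = y
      · refine ⟨yx + c, hyc, fun e2 => hc0 ?_⟩
        rw [← e] at e2
        exact left_eq_add.mp e2.symm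
      · exact ⟨yx, hyx, e⟩
    obtain ⟨y2, hy2, hy2ne⟩ := hy2
    obtain ⟨hGf, hG2⟩ := h.facet_of_extreme hxS hy hext hy2 hy2ne
    refine ⟨{s | s ∈ S ∧ inner ℝ y s = 1}, hGf, ⟨x, hxS, hy.2.2⟩, hG2, ⟨hxS, hy.2.2⟩, ?_⟩
    intro e
    rw [← e] at h0F
    have := h0F.2
    rw [inner_zero_right] at this
    exact zero_ne_one this

end Pool.Agent.R788.FE
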