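import Mathlib
import Pool.Agent.R788.FE.Neg4

/-!
No closed convex set containing the origin has signature `{0,2,3}` and is facially exposed together
with its polar.
-/

open Module Submodule

namespace Pool.Agent.R788.FE

variable {n : ℕ}

/-- `S` contains no line. -/
lemma Bad.noline {S : Set (E n)} (h : Bad S) {z u : E n} (hline : ∀ t : ℝ, z + t • u ∈ S) :
    u = 0 := by
  have h0 : 0 ∈ signature S := by rw [h.sig]; simp
  obtain ⟨E0, hE0, ⟨e, he⟩, hd⟩ := h0
  have heS : e ∈ S := hE0.2.1 he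
  have key : ∀ w : E n, (∀ t : ℝ, z + t • w ∈ S) → e + w ∈ S := by
    intro w hw
    have hlim : Filter.Tendsto (fun k : ℕ => e + w + (1 / ((k : ℝ) + 1)) • (z - e))
        Filter.atTop (nhds (e + w + (0 : ℝ) • (z - e))) :=
      tendsto_const_nhds.add (tendsto_one_div_add_atTop_nhds_zero_nat.smul_const (z - e))
    rw [zero_smul, add_zero] at hlim
    refine h.closed.mem_of_tendsto hlim (Filter.Eventually.of_forall fun k => ?_)
    have hk : (0 : ℝ) < (k : ℝ) + 1 := by positivity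
    have h1 := h.conv heS (hw ((k : ℝ) + 1)) (a := 1 - 1 / ((k : ℝ) + 1)) (b := 1 / ((k : ℝ) + 1))
      (by rw [sub_nonneg, div_le_one hk]; linarith [(Nat.cast_nonneg k : (0 : ℝ) ≤ k)])
      (by positivity) (by ring)
    convert! h1 using 1
    rw [smul_add, smul_smul, one_div_mul_cancel hk.ne', one_smul]
    module
  have h1 := key u hline
  have h2 : e + -u ∈ S := key (-u) (fun t => by
    have := hline (-t)
    rwa [neg_smul, ← smul_neg] at this)
  have h3 := hE0.2.2 _ h1 _ h2 ⟨e, ⟨1 / 2, 1 / 2, by norm_num, by norm_num, by norm_num, by module⟩,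
    he⟩
  have h4 := eq_of_dim_zero hd h3.1 he
  exact left_eq_add.mp h4.symm

/-- two facets sharing two points agree. -/
lemma Bad.facets_eq {S : Set (E n)} (h : Bad S) {F G : Set (E n)} (hF : IsFace S F)
    (hF2 : dimSet F = 2) (hG : IsFace S G) (hG2 : dimSet G = 2) {x y : E n} (hxF : x ∈ F)
    (hyF : y ∈ F) (hxG : x ∈ G) (hyG : y ∈ G) (hxy : x ≠ y) : G = F := by
  obtain ⟨c, b, -, -, -, hFeq, hFV⟩ := facet_normal h.zero h.finrank_eq h.fe hF ⟨x, hxF⟩ hF2
  obtain ⟨c', b', -, -, -, hGeq, hGV⟩ := facet_normal h.zero h.finrank_eq h.fe hG ⟨x, hxG⟩ hG2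
  have hint : IsFace S (F ∩ G) := by
    refine ⟨hF.1.inter hG.1, fun s hs => hF.2.1 hs.1, ?_⟩
    rintro a ha p hp ⟨q, hq, hqF, hqG⟩
    have h1 := hF.2.2 a ha p hp ⟨q, hq, hqF⟩
    have h2 := hG.2.2 a ha p hp ⟨q, hq, hqG⟩
    exact ⟨⟨h1.1, h2.1⟩, ⟨h1.2, h2.2⟩⟩
  have hleF : vectorSpan ℝ (F ∩ G) ≤ vectorSpan ℝ F := vectorSpan_mono ℝ Set.inter_subset_left
  have hleG : vectorSpan ℝ (F ∩ G) ≤ vectorSpan ℝ G := vectorSpan_mono ℝ Set.inter_subset_right
  have hd : dimSet (F ∩ G) = 2 := by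
    have h1 : dimSet (F ∩ G) ≤ dimSet F := Submodule.finrank_mono hleF
    rcases h.dims hint ⟨x, hxF, hxG⟩ with h0 | h2 | h3
    · exact absurd (eq_of_dim_zero h0 ⟨hxF, hxG⟩ ⟨hyF, hyG⟩) hxy
    · exact h2
    · omega
  have e1 : vectorSpan ℝ (F ∩ G) = vectorSpan ℝ F :=
    Submodule.eq_of_le_of_finrank_eq hleF (by unfold dimSet at hd hF2; rw [hd, hF2])
  have e2 : vectorSpan ℝ (F ∩ G) = vectorSpan ℝ G :=
    Submodule.eq_of_le_of_finrank_eq hleG (by unfold dimSet at hd hG2; rw [hd, hG2])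
  have e3 : vectorSpan ℝ G = vectorSpan ℝ F := e2.symm.trans e1
  have key : ∀ {P Q : Set (E n)} {c : E n} {b : ℝ}, P = {s | s ∈ S ∧ inner ℝ c s = b} →
      vectorSpan ℝ P = (ℝ ∙ c)ᗮ ⊓ vectorSpan ℝ S → vectorSpan ℝ Q = vectorSpan ℝ P → Q ⊆ S →
      x ∈ P → x ∈ Q → Q ⊆ P := by
    intro P Q c b hP hPV hQP hQS hxP hxQ g hg
    have h1 : (g - x : E n) ∈ vectorSpan ℝ Q := vsub_mem_vectorSpan ℝ hg hxQ
    rw [hQP, hPV] at h1
    have h2 := Submodule.mem_orthogonal_singleton_iff_inner_right.mp h1.1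
    rw [inner_sub_right] at h2
    rw [hP] at hxP
    rw [hP]
    refine ⟨hQS hg, ?_⟩
    have := hxP.2
    linarith
  apply Set.Subset.antisymm
  · exact key hFeq hFV e3 hG.2.1 hxF hxG
  · exact key hGeq hGV e3.symm hF.2.1 hxG hxF

lemma Bad.closed_facet {S : Set (E n)} (h : Bad S) {F : Set (E n)} (hF : IsFace S F)
    (hne : F.Nonempty) (hF2 : dimSet F = 2) : IsClosed F := by
  obtain ⟨c, b, -, -, -, hFeq, -⟩ := facet_normal h.zero h.finrank_eq h.fe hF hne hF2
  rw [hFeq]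
  have hcont : Continuous (fun y : E n => (inner ℝ c y : ℝ)) := by fun_prop
  exact h.closed.inter (isClosed_eq hcont continuous_const)

/-- The exit point of a facet in a direction is an extreme point. -/
lemma Bad.exit_point {S : Set (E n)} (h : Bad S) {F : Set (E n)} (hF : IsFace S F)
    (hF2 : dimSet F = 2) {z : E n} (hz : z ∈ F) {ε : ℝ} (hε : 0 < ε)
    (hrel : ∀ v ∈ vectorSpan ℝ F, ‖v‖ ≤ ε → z + v ∈ F) {u : E n} (hu : u ∈ vectorSpan ℝ F)
    {t1 : ℝ} (ht1 : 0 < t1) (hout : z + t1 • u ∉ F) :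
    ∃ t : ℝ, 0 < t ∧ z + t • u ∈ F ∧ minFace S (z + t • u) = {z + t • u} := by
  have hcl := h.closed_facet hF ⟨z, hz⟩ hF2
  set T : Set ℝ := {t | t ∈ Set.Icc 0 t1 ∧ z + t • u ∈ F} with hT
  have hTc : IsCompact T := by
    apply isCompact_Icc.of_isClosed_subset _ (fun t ht => ht.1)
    have hcont : Continuous (fun t : ℝ => z + t • u) := by fun_prop
    exact isClosed_Icc.inter (hcl.preimage hcont)
  have h0T : (0 : ℝ) ∈ T := ⟨⟨le_rfl, ht1.le⟩, by simpa using hz⟩
  obtain ⟨t, htT, htmax⟩ := hTc.exists_isGreatest ⟨0, h0T⟩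
  have htlt : t < t1 := by
    refine lt_of_le_of_ne htT.1.2 fun e => hout ?_
    rw [← e]; exact htT.2
  have hadv : ∀ ε' : ℝ, 0 < ε' → z + (t + ε') • u ∉ F := by
    intro ε' hε' hmem
    set m : ℝ := min (t + ε') t1 with hm
    have hmt : t < m := lt_min (by linarith) htlt
    have h0t : 0 ≤ t := htT.1.1
    have hmF : z + m • u ∈ F :=
      shrink hF.1 hz (by linarith) hmem (h0t.trans hmt.le) (min_le_left _ _)
    have := htmax (show m ∈ T from ⟨⟨h0t.trans hmt.le, min_le_right _ _⟩, hmF⟩)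
    linarith
  have htpos : 0 < t := by
    have h0t : 0 ≤ t := htT.1.1
    rcases h0t.lt_or_eq with hlt | he
    · exact hlt
    · exfalso
      by_cases hu0 : u = 0
      · apply hout; rw [hu0, smul_zero, add_zero]; exact hz
      have hupos : 0 < ‖u‖ := norm_pos_iff.mpr hu0
      apply hadv (ε / ‖u‖) (by positivity)
      rw [← he, zero_add]
      apply hrel _ ((vectorSpan ℝ F).smul_mem _ hu)
      rw [norm_smul, Real.norm_eq_abs, abs_of_pos (by positivity), div_mul_cancel₀ _ hupos.ne']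
  refine ⟨t, htpos, htT.2, ?_⟩
  set x : E n := z + t • u with hx
  have hxF : x ∈ F := htT.2
  have hxS : x ∈ S := hF.2.1 hxF
  have hface := minFace_isFace h.conv hxS
  have hsub := minFace_subset hF hxF
  have hle : vectorSpan ℝ (minFace S x) ≤ vectorSpan ℝ F := vectorSpan_mono ℝ hsub
  have hself := self_mem_minFace hxS
  rcases h.dims hface ⟨x, hself⟩ with h0 | h2 | h3
  · apply Set.Subset.antisymm
    · intro y hy
      exact Set.mem_singleton_iff.mpr (eq_of_dim_zero h0 hy hself)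
    · rw [Set.singleton_subset_iff]; exact hself
  · exfalso
    have heq : vectorSpan ℝ (minFace S x) = vectorSpan ℝ F :=
      Submodule.eq_of_le_of_finrank_eq hle (by unfold dimSet at h2 hF2; rw [h2, hF2])
    obtain ⟨ε', hε', hmem⟩ := minFace_dir h.conv hxS u (by rw [heq]; exact hu)
    apply hadv ε' hε'
    have := hsub hmem
    rwa [hx, add_assoc, ← add_smul] at this
  · exfalso
    have h1 : dimSet (minFace S x) ≤ dimSet F := Submodule.finrank_mono hle
    omega

theorem Bad.false {S : Set (E n)} (h : Bad S) : False := by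
  classical
  have h2 : 2 ∈ signature S := by rw [h.sig]; simp
  obtain ⟨F, hF, hne, hF2⟩ := h2
  obtain ⟨z, hz, ε, hε, hrel⟩ := exists_relint hF.1 hne
  have hcl := h.closed_facet hF hne hF2
  -- a basis of the direction space
  have hVfin : finrank ℝ (vectorSpan ℝ F) = 2 := hF2
  let B : Basis (Fin 2) ℝ (vectorSpan ℝ F) := Module.finBasisOfFinrankEq ℝ _ hVfin
  have hli : ∀ a b : ℝ, a • (B 0 : E n) + b • (B 1 : E n) = 0 → a = 0 ∧ b = 0 := by
    intro a b hab
    have hab' : a • B 0 + b • B 1 = 0 := by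
      apply Subtype.ext
      push_cast
      exact hab
    have := B.linearIndependent
    rw [Fintype.linearIndependent_iff] at this
    have h3 := this ![a, b] (by simpa [Fin.sum_univ_two] using hab')
    exact ⟨h3 0, h3 1⟩
  -- choose the sign
  obtain ⟨u0, t1, hu0V, ht1, hout, hli0⟩ : ∃ (u0 : E n) (t1 : ℝ), u0 ∈ vectorSpan ℝ F ∧ 0 < t1 ∧
      z + t1 • u0 ∉ F ∧ ∀ a b : ℝ, a • u0 + b • (B 1 : E n) = 0 → a = 0 ∧ b = 0 := by
    by_contra hcon
    push Not at hcon
    have hB0 : (B 0 : E n) = 0 := by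
      apply h.noline (z := z)
      intro t
      by_contra hout
      have hout' : z + t • (B 0 : E n) ∉ F := fun hh => hout (hF.2.1 hh)
      rcases lt_trichotomy t 0 with ht | ht | ht
      · obtain ⟨a, b, hab, hab'⟩ := hcon (-(B 0 : E n)) (-t) ((vectorSpan ℝ F).neg_mem (B 0).2)
          (by linarith) (by rw [neg_smul_neg]; exact hout')
        have h4 := hli (-a) b (by rw [neg_smul, ← smul_neg]; exact hab)
        exact hab' (by linarith [h4.1]) h4.2
      · rw [ht, zero_smul, add_zero] at hout'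
        exact hout' hz
      · obtain ⟨a, b, hab, hab'⟩ := hcon (B 0 : E n) t (B 0).2 ht hout'
        have h4 := hli a b hab
        exact hab' h4.1 h4.2
    have := hli 1 0 (by rw [hB0]; simp)
    exact one_ne_zero this.1
  set u1 : E n := (B 1 : E n) with hu1
  have hu1V : u1 ∈ vectorSpan ℝ F := (B 1).2
  -- an interval of directions
  obtain ⟨δ, hδ, hδout⟩ : ∃ δ : ℝ, 0 < δ ∧ ∀ s : ℝ, |s| < δ → z + t1 • (u0 + s • u1) ∉ F := by
    have hcont : Continuous (fun s : ℝ => z + t1 • (u0 + s • u1)) := by fun_prop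
    have hopen : IsOpen {s : ℝ | z + t1 • (u0 + s • u1) ∉ F} := (hcl.preimage hcont).isOpen_compl
    have h0 : (0 : ℝ) ∈ {s : ℝ | z + t1 • (u0 + s • u1) ∉ F} := by
      show z + t1 • (u0 + (0 : ℝ) • u1) ∉ F
      rw [zero_smul, add_zero]; exact hout
    obtain ⟨δ, hδ, hb⟩ := Metric.isOpen_iff.mp hopen 0 h0
    refine ⟨δ, hδ, fun s hs => ?_⟩
    have : s ∈ Metric.ball (0 : ℝ) δ := by rw [mem_ball_zero_iff, Real.norm_eq_abs]; exact hs
    exact hb this
  have hexit : ∀ s : ℝ, ∃ t : ℝ, |s| < δ → 0 < t ∧ z + t • (u0 + s • u1) ∈ F ∧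
      minFace S (z + t • (u0 + s • u1)) = {z + t • (u0 + s • u1)} := by
    intro s
    by_cases hs : |s| < δ
    · obtain ⟨t, ht⟩ := h.exit_point hF hF2 hz hε hrel
        ((vectorSpan ℝ F).add_mem hu0V ((vectorSpan ℝ F).smul_mem s hu1V)) ht1 (hδout s hs)
      exact ⟨t, fun _ => ht⟩
    · exact ⟨0, fun hh => absurd hh hs⟩
  choose t ht using hexit
  let x : ℝ → E n := fun s => z + t s • (u0 + s • u1)
  have hxinj : ∀ s s' : ℝ, |s| < δ → |s'| < δ → x s = x s' → s = s' := by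
    intro s s' hs hs' hxx
    have h5 : t s • (u0 + s • u1) = t s' • (u0 + s' • u1) := add_left_cancel hxx
    have h6 := hli0 (t s - t s') (t s * s - t s' * s') (by
      have : (t s - t s') • u0 + (t s * s - t s' * s') • u1
          = t s • (u0 + s • u1) - t s' • (u0 + s' • u1) := by module
      rw [this, h5, sub_self])
    have h7 : t s = t s' := by linarith [h6.1]
    have h8 : t s * (s - s') = 0 := by
      have := h6.2
      rw [← h7] at this
      linarith
    rcases mul_eq_zero.mp h8 with h9 | h9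
    · exact absurd h9 (ht s hs).1.ne'
    · linarith
  have hG : ∀ s : ℝ, ∃ G : Set (E n), |s| < δ → x s ≠ 0 →
      IsFace S G ∧ G.Nonempty ∧ dimSet G = 2 ∧ x s ∈ G ∧ G ≠ F := by
    intro s
    by_cases hs : |s| < δ ∧ x s ≠ 0
    · obtain ⟨G, hG⟩ := h.exists_other_facet hF hF2 (ht s hs.1).2.1 hs.2 (ht s hs.1).2.2
      exact ⟨G, fun _ _ => hG⟩
    · exact ⟨∅, fun h1 h2 => absurd ⟨h1, h2⟩ hs⟩
  choose G hG using hG
  have hcount1 : {s : ℝ | |s| < δ ∧ x s ≠ 0}.Countable := by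
    have hcf := countable_facets h.zero h.finrank_eq h.fe
    refine Set.MapsTo.countable_of_injOn (f := G) ?_ ?_ hcf
    · rintro s ⟨hs, hxs⟩
      have := hG s hs hxs
      exact ⟨this.1, this.2.1, this.2.2.1⟩
    · rintro s ⟨hs, hxs⟩ s' ⟨hs', hxs'⟩ hGG
      by_contra hss
      have hA := hG s hs hxs
      have hB := hG s' hs' hxs'
      rw [← hGG] at hB
      exact hA.2.2.2.2 (h.facets_eq hF hF2 hA.1 hA.2.2.1 (ht s hs).2.1 (ht s' hs').2.1 hA.2.2.2.1
        hB.2.2.2.1 (fun e => hss (hxinj s s' hs hs' e)))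
  have hcount2 : {s : ℝ | |s| < δ ∧ x s = 0}.Countable := by
    apply Set.Subsingleton.countable
    rintro s ⟨hs, hxs⟩ s' ⟨hs', hxs'⟩
    exact hxinj s s' hs hs' (hxs.trans hxs'.symm)
  have hcount : (Set.Ioo (-δ) δ).Countable := by
    apply (hcount1.union hcount2).mono
    intro s hs
    have hs' : |s| < δ := abs_lt.mpr hs
    by_cases hxs : x s = 0
    · exact Or.inr ⟨hs', hxs⟩
    · exact Or.inl ⟨hs', hxs⟩
  have hm := hcount.measure_zero MeasureTheory.volume
  rw [Real.volume_Ioo, ENNReal.ofReal_eq_zero] at hm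
  linarith

end Pool.Agent.R788.FE
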