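import Pool.Agent.R788.FE.Sig

/-!
The polar of the body.
-/

open scoped BigOperators Topology

namespace Pool.Agent.R788.FE

variable {N : ℕ} {J : Finset ℕ}

noncomputable def hh (N i : ℕ) : ℝ := 2 * (i : ℝ) + 4 * ((N : ℝ) + 1)

lemma hh_pos (N i : ℕ) : 0 < hh N i := by unfold hh; positivity

/-- the Lorentzian form -/
noncomputable def BB (i : ℕ) (y z : E (N + 1)) : ℝ :=
  -(2 * co N i) * (y (Fin.last N) + z (Fin.last N))
    + 4 * co N i * hh N i * (y (Fin.last N) * z (Fin.last N)) - bil i y z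

/-- the polar -/
def KK (N i : ℕ) : Set (E (N + 1)) :=
  {y | (∀ k : Fin N, (k : ℕ) < i → y k.castSucc = 0) ∧ y (Fin.last N) ≤ 0 ∧ 0 ≤ BB i y y}

lemma bil_cs (i : ℕ) (X Y : E (N + 1)) : (bil i X Y) ^ 2 ≤ bil i X X * bil i Y Y := by
  have h := Finset.sum_mul_sq_le_sq_mul_sq (Finset.univ : Finset (Fin N))
    (fun k => if i ≤ (k : ℕ) then X k.castSucc else 0)
    (fun k => if i ≤ (k : ℕ) then Y k.castSucc else 0)
  have e1 : ∀ U V : E (N + 1), (∑ k : Fin N, (if i ≤ (k : ℕ) then U k.castSucc else 0)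
      * (if i ≤ (k : ℕ) then V k.castSucc else 0)) = bil i U V := by
    intro U V
    unfold bil
    refine Finset.sum_congr rfl fun k _ => ?_
    split_ifs <;> simp
  have e2 : ∀ U : E (N + 1), (∑ k : Fin N, (if i ≤ (k : ℕ) then U k.castSucc else 0) ^ 2)
      = bil i U U := by
    intro U
    rw [← e1]
    refine Finset.sum_congr rfl fun k _ => ?_
    rw [sq]
  rw [e1, e2, e2] at h
  exact h

lemma inner_eq_of_zero {i : ℕ} (X y : E (N + 1)) (h : ∀ k : Fin N, (k : ℕ) < i → y k.castSucc = 0) :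
    inner ℝ X y = bil i X y + X (Fin.last N) * y (Fin.last N) := by
  simp only [PiLp.inner_apply, RCLike.inner_apply, conj_trivial]
  rw [Fin.sum_univ_castSucc]
  unfold bil
  congr 1
  · refine Finset.sum_congr rfl fun k _ => ?_
    split_ifs with hk
    · ring
    · rw [h k (not_le.mp hk), zero_mul]
  · ring

lemma bil_mono {i j : ℕ} (hij : i ≤ j) (X : E (N + 1)) : bil j X X ≤ bil i X X := by
  unfold bil
  refine Finset.sum_le_sum fun k _ => ?_
  split_ifs with h1 h2
  · exact le_rfl
  · omega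
  · exact mul_self_nonneg _
  · exact le_rfl

lemma KK_subset_polar {i : ℕ} (hi : i ∈ J) (hJ : ∀ i ∈ J, i ≤ N) : KK N i ⊆ polarSet (body N J) := by
  rintro y ⟨h1, h2, h3⟩ X hX
  rw [inner_eq_of_zero X y h1]
  have hc := co_pos (hJ i hi)
  have hH := hh_pos N i
  set s : ℝ := -y (Fin.last N) with hs
  have hs0 : 0 ≤ s := by linarith
  have hX' := hX i hi
  have hff : ff i X = co N i * bil i X X + hh N i := by unfold ff hh; ring
  rw [hff] at hX'
  have hy : bil i y y ≤ 4 * co N i * s * (1 + hh N i * s) := by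
    have : BB i y y = 4 * co N i * s * (1 + hh N i * s) - bil i y y := by
      unfold BB; rw [hs]; ring
    linarith
  have hcs := bil_cs i X y
  have hq := bil_nonneg i X
  have h4 : (bil i X y) ^ 2 ≤ (1 + s * hh N i + s * co N i * bil i X X) ^ 2 := by
    have h5 : bil i X X * bil i y y ≤ bil i X X * (4 * co N i * s * (1 + hh N i * s)) :=
      mul_le_mul_of_nonneg_left hy hq
    nlinarith [sq_nonneg (1 + s * hh N i - s * co N i * bil i X X)]
  have h6 : 0 ≤ 1 + s * hh N i + s * co N i * bil i X X := by positivity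
  have h7 : bil i X y ≤ 1 + s * hh N i + s * co N i * bil i X X :=
    le_trans (le_abs_self _) (abs_le_of_sq_le_sq h4 h6)
  have h8 : X (Fin.last N) * y (Fin.last N) = - (s * X (Fin.last N)) := by rw [hs]; ring
  rw [h8]
  have h9 := mul_le_mul_of_nonneg_left hX' hs0
  linarith

lemma scale {i0 : ℕ} (hJ : ∀ i ∈ J, i0 ≤ i ∧ i ≤ N) (hi0 : i0 ≤ N) {X : E (N + 1)}
    (hX : co N i0 * bil i0 X X + hh N i0 ≤ X (Fin.last N)) :
    ∃ μ : ℝ, 1 ≤ μ ∧ μ • X ∈ body N J := by
  have hc := co_pos hi0
  have hH := hh_pos N i0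
  have hN0 : (0 : ℝ) ≤ N := by positivity
  have hi00 : (0 : ℝ) ≤ i0 := by positivity
  have hsm : ∀ (i : ℕ) (μ : ℝ), ff i (μ • X) = co N i * (μ ^ 2 * bil i X X) + 2 * i + 4 * ((N : ℝ) + 1) := by
    intro i μ
    have := bil_add_smul i (0 : E (N + 1)) X μ
    rw [zero_add] at this
    have h0 : bil i (0 : E (N + 1)) 0 = 0 := by simp [bil]
    have h1 : bil i (0 : E (N + 1)) X = 0 := by simp [bil]
    rw [h0, h1] at this
    unfold ff
    rw [this]
    ring
  -- main comparison
  have hcmp : ∀ i ∈ J, ∀ Q : ℝ, 2 ≤ Q → co N i * Q + 2 * i + 4 * ((N : ℝ) + 1)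
      ≤ co N i0 * Q + hh N i0 := by
    intro i hi Q hQ
    have h1 : (i0 : ℝ) ≤ i := by exact_mod_cast (hJ i hi).1
    unfold co hh
    nlinarith [mul_nonneg (sub_nonneg.mpr h1) (sub_nonneg.mpr hQ)]
  have hle : ∀ i ∈ J, ∀ μ : ℝ, 2 ≤ μ ^ 2 * bil i0 X X →
      ff i (μ • X) ≤ co N i0 * (μ ^ 2 * bil i0 X X) + hh N i0 := by
    intro i hi μ hμ
    rw [hsm]
    have h1 : μ ^ 2 * bil i X X ≤ μ ^ 2 * bil i0 X X :=
      mul_le_mul_of_nonneg_left (bil_mono (hJ i hi).1 X) (sq_nonneg μ)
    have h2 := mul_le_mul_of_nonneg_left h1 (co_pos (hJ i hi).2).le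
    have h3 := hcmp i hi _ hμ
    linarith
  have hlast : ∀ μ : ℝ, (μ • X) (Fin.last N) = μ * X (Fin.last N) := by
    intro μ; simp
  by_cases hq2 : 2 ≤ bil i0 X X
  · refine ⟨1, le_rfl, fun i hi => ?_⟩
    have h1 := hle i hi 1 (by simpa using hq2)
    rw [hlast]
    simp only [one_pow, one_mul] at h1 ⊢
    linarith
  · push Not at hq2
    rcases eq_or_lt_of_le (bil_nonneg i0 X) with hq0 | hq0
    · refine ⟨2, by norm_num, fun i hi => ?_⟩
      rw [hlast, hsm]
      have h1 : bil i X X = 0 :=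
        le_antisymm (hq0 ▸ bil_mono (hJ i hi).1 X) (bil_nonneg i X)
      rw [h1]
      rw [← hq0] at hX
      have h2 : (i : ℝ) ≤ N := by exact_mod_cast (hJ i hi).2
      unfold hh at hX
      linarith
    · refine ⟨2 / bil i0 X X, ?_, fun i hi => ?_⟩
      · rw [le_div_iff₀ hq0]; linarith
      · set q := bil i0 X X with hqdef
        have hμq : 2 / q * q = 2 := by field_simp
        have hμ1 : 1 ≤ 2 / q := by rw [le_div_iff₀ hq0]; linarith
        have hμ2 : (2 / q) ^ 2 * q = 2 * (2 / q) := by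
          rw [sq, mul_assoc, hμq]; ring
        have h1 := hle i hi (2 / q) (by rw [hμ2]; linarith)
        rw [hμ2] at h1
        rw [hlast]
        have h2 : 2 / q * (co N i0 * q + hh N i0) ≤ 2 / q * X (Fin.last N) :=
          mul_le_mul_of_nonneg_left hX (by positivity)
        have h3 : 2 / q * (co N i0 * q + hh N i0) = 2 * co N i0 + (2 / q) * hh N i0 := by
          rw [mul_add, mul_comm (co N i0) q, ← mul_assoc, hμq]
        have h4 : 0 ≤ (2 / q - 1) * (hh N i0 - 2 * co N i0) := by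
          apply mul_nonneg (by linarith)
          unfold hh co
          linarith
        nlinarith

lemma polar_ineq {i0 : ℕ} (hJ : ∀ i ∈ J, i0 ≤ i ∧ i ≤ N) (hi0 : i0 ≤ N) {y : E (N + 1)}
    (hy : y ∈ polarSet (body N J)) {X : E (N + 1)}
    (hX : co N i0 * bil i0 X X + hh N i0 ≤ X (Fin.last N)) : inner ℝ X y ≤ 1 := by
  obtain ⟨μ, hμ, hS⟩ := scale hJ hi0 hX
  have h := hy _ hS
  rw [real_inner_smul_left] at h
  by_contra hcon
  push Not at hcon
  nlinarith

/-- general point -/
noncomputable def mk (x : Fin N → ℝ) (t : ℝ) : E (N + 1) :=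
  WithLp.toLp 2 (Fin.snoc (α := fun _ => ℝ) x t)

@[simp] lemma mk_last (x : Fin N → ℝ) (t : ℝ) : mk x t (Fin.last N) = t := by simp [mk]

@[simp] lemma mk_castSucc (x : Fin N → ℝ) (t : ℝ) (k : Fin N) :
    mk x t k.castSucc = x k := by simp [mk]

lemma inner_mk (x : Fin N → ℝ) (t : ℝ) (y : E (N + 1)) :
    inner ℝ (mk x t) y = (∑ k : Fin N, x k * y k.castSucc) + t * y (Fin.last N) := by
  simp only [PiLp.inner_apply, RCLike.inner_apply, conj_trivial]
  rw [Fin.sum_univ_castSucc]
  simp only [mk_last, mk_castSucc]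
  congr 1
  · exact Finset.sum_congr rfl fun k _ => mul_comm _ _
  · ring

lemma polar_subset_KK {i0 : ℕ} (hJ : ∀ i ∈ J, i0 ≤ i ∧ i ≤ N) (hi0 : i0 ≤ N) :
    polarSet (body N J) ⊆ KK N i0 := by
  intro y hy
  have hc := co_pos hi0
  have hH := hh_pos N i0
  have key : ∀ (x : Fin N → ℝ) (t : ℝ), co N i0 * bil i0 (mk x t) (mk x t) + hh N i0 ≤ t →
      (∑ k : Fin N, x k * y k.castSucc) + t * y (Fin.last N) ≤ 1 := by
    intro x t h
    rw [← inner_mk]
    exact polar_ineq hJ hi0 hy (by rw [mk_last]; exact h)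
  have hlast : y (Fin.last N) ≤ 0 := by
    by_contra hcon
    push Not at hcon
    have h := key 0 (hh N i0 + 2 / y (Fin.last N)) (by
      have : bil i0 (mk (0 : Fin N → ℝ) (hh N i0 + 2 / y (Fin.last N)))
        (mk (0 : Fin N → ℝ) (hh N i0 + 2 / y (Fin.last N))) = 0 := by simp [bil]
      rw [this]
      have : 0 ≤ 2 / y (Fin.last N) := by positivity
      linarith)
    simp only [Pi.zero_apply, zero_mul, Finset.sum_const_zero, zero_add] at h
    rw [add_mul, div_mul_cancel₀ _ hcon.ne'] at h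
    nlinarith [mul_pos hH hcon]
  refine ⟨?_, hlast, ?_⟩
  · intro k hk
    by_contra hne
    have h := key (Pi.single k ((2 - hh N i0 * y (Fin.last N)) / y k.castSucc)) (hh N i0) (by
      have : bil i0 (mk (Pi.single k ((2 - hh N i0 * y (Fin.last N)) / y k.castSucc)) (hh N i0))
        (mk (Pi.single k ((2 - hh N i0 * y (Fin.last N)) / y k.castSucc)) (hh N i0)) = 0 := by
        apply bil_eq_zero_of
        intro l hl
        rw [mk_castSucc, Pi.single_apply, if_neg]
        rintro rfl
        omega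
      rw [this]
      linarith)
    rw [Finset.sum_eq_single k] at h
    · rw [Pi.single_eq_same, div_mul_cancel₀ _ hne] at h
      linarith
    · intro l _ hl
      rw [Pi.single_eq_of_ne hl, zero_mul]
    · simp
  · set n := bil i0 y y with hn
    have hn0 : 0 ≤ n := bil_nonneg i0 y
    set s : ℝ := -y (Fin.last N) with hs
    have hs0 : 0 ≤ s := by linarith
    have hB : BB i0 y y = 4 * co N i0 * s * (1 + hh N i0 * s) - n := by
      unfold BB; rw [hs, hn]; ring
    rw [hB]
    have hquad : ∀ lam : ℝ, 0 ≤ (s * co N i0 * n) * (lam * lam) + (-n) * lam + (1 + hh N i0 * s) := by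
      intro lam
      have hb : ∀ t, bil i0 (mk (fun k : Fin N => if i0 ≤ (k : ℕ) then lam * y k.castSucc else 0) t)
          (mk (fun k : Fin N => if i0 ≤ (k : ℕ) then lam * y k.castSucc else 0) t)
          = lam * lam * n := by
        intro t
        rw [hn]
        unfold bil
        rw [Finset.mul_sum]
        refine Finset.sum_congr rfl fun k _ => ?_
        simp only [mk_castSucc]
        split_ifs
        · ring
        · ring
      have h := key (fun k : Fin N => if i0 ≤ (k : ℕ) then lam * y k.castSucc else 0)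
        (co N i0 * (lam * lam * n) + hh N i0) (by rw [hb])
      have h1 : (∑ k : Fin N, (if i0 ≤ (k : ℕ) then lam * y k.castSucc else 0) * y k.castSucc)
          = lam * n := by
        rw [hn]
        unfold bil
        rw [Finset.mul_sum]
        refine Finset.sum_congr rfl fun k _ => ?_
        split_ifs
        · ring
        · ring
      simp only [h1] at h
      have hy' : y (Fin.last N) = -s := by rw [hs]; ring
      rw [hy'] at h
      nlinarith
    have hd := discrim_le_zero hquad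
    unfold discrim at hd
    rcases eq_or_lt_of_le hn0 with h0 | h0
    · rw [← h0]
      have : 0 ≤ 4 * co N i0 * s * (1 + hh N i0 * s) := by positivity
      linarith
    · have h1 : n * (n - 4 * co N i0 * s * (1 + hh N i0 * s)) ≤ 0 := by nlinarith
      by_contra hcon
      push Not at hcon
      have := mul_pos h0 (show 0 < n - 4 * co N i0 * s * (1 + hh N i0 * s) by linarith)
      linarith

/-- reverse Cauchy-Schwarz -/
lemma BB_pos {i : ℕ} (hi : i ≤ N) {y z : E (N + 1)} (hy : y ∈ KK N i) (hz : z ∈ KK N i) :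
    0 ≤ BB i y z ∧ (BB i y z = 0 → y = z) := by
  have hc := co_pos hi
  have hH := hh_pos N i
  obtain ⟨y1, y2, y3⟩ := hy
  obtain ⟨z1, z2, z3⟩ := hz
  set s : ℝ := -y (Fin.last N) with hs
  set t : ℝ := -z (Fin.last N) with ht
  set a := co N i with ha
  set H := hh N i with hHdef
  have hs0 : 0 ≤ s := by linarith
  have ht0 : 0 ≤ t := by linarith
  have hyl : y (Fin.last N) = -s := by rw [hs]; ring
  have hzl : z (Fin.last N) = -t := by rw [ht]; ring
  have eyz : BB i y z = 2 * a * (s + t) + 4 * a * H * (s * t) - bil i y z := by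
    unfold BB; rw [hyl, hzl]; ring
  have eyy : bil i y y ≤ 4 * a * s * (1 + H * s) := by
    have : BB i y y = 4 * a * s * (1 + H * s) - bil i y y := by
      unfold BB; rw [hyl]; ring
    linarith
  have ezz : bil i z z ≤ 4 * a * t * (1 + H * t) := by
    have : BB i z z = 4 * a * t * (1 + H * t) - bil i z z := by
      unfold BB; rw [hzl]; ring
    linarith
  have hcs := bil_cs i y z
  have hyn := bil_nonneg i y
  have hzn := bil_nonneg i z
  have hprod : bil i y y * bil i z z ≤ (4 * a * s * (1 + H * s)) * (4 * a * t * (1 + H * t)) :=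
    mul_le_mul eyy ezz hzn (by positivity)
  set M := 2 * a * (s + t) + 4 * a * H * (s * t) with hM
  have hM0 : 0 ≤ M := by positivity
  have hsq : (bil i y z) ^ 2 + 4 * a ^ 2 * (s - t) ^ 2 ≤ M ^ 2 := by
    have : M ^ 2 = 4 * a ^ 2 * (s - t) ^ 2 + (4 * a * s * (1 + H * s)) * (4 * a * t * (1 + H * t)) := by
      rw [hM]; ring
    linarith
  constructor
  · rw [eyz]
    have h1 : (bil i y z) ^ 2 ≤ M ^ 2 := by
      have : 0 ≤ 4 * a ^ 2 * (s - t) ^ 2 := by positivity
      linarith
    have := le_trans (le_abs_self _) (abs_le_of_sq_le_sq h1 hM0)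
    linarith
  · intro h0
    rw [eyz] at h0
    have h1 : bil i y z = M := by linarith
    rw [h1] at hsq
    have h2 : 4 * a ^ 2 * (s - t) ^ 2 ≤ 0 := by linarith
    have h3 : (s - t) ^ 2 ≤ 0 := by
      by_contra hcon
      push Not at hcon
      have : 0 < 4 * a ^ 2 * (s - t) ^ 2 := by positivity
      linarith
    have h4 : s = t := by
      have := pow_eq_zero_iff (two_ne_zero) |>.mp (le_antisymm h3 (sq_nonneg _))
      linarith
    have h5 : bil i (z - y) (z - y) ≤ 0 := by
      rw [bil_sub_self, h1, hM, ← h4]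
      rw [← h4] at ezz
      nlinarith
    ext l
    refine Fin.lastCases ?_ (fun k => ?_) l
    · rw [hyl, hzl, h4]
    · by_cases hk : i ≤ (k : ℕ)
      · have := eq_zero_of_bil h5 k hk
        simp only [PiLp.sub_apply] at this
        linarith
      · rw [y1 k (not_le.mp hk), z1 k (not_le.mp hk)]

lemma bil_smul_add (i : ℕ) (X Y : E (N + 1)) (s : ℝ) :
    bil i (X + s • (X - Y)) (X + s • (X - Y))
      = bil i X X + 2 * s * bil i X (X - Y) + s ^ 2 * bil i (X - Y) (X - Y) := bil_add_smul _ _ _ _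

lemma continuous_BB (i : ℕ) (X V : E (N + 1)) :
    Continuous fun s : ℝ => BB i (X + s • V) (X + s • V) := by
  unfold BB
  simp only [bil_add_smul, PiLp.add_apply, PiLp.smul_apply, smul_eq_mul]
  fun_prop

lemma KK_relint {i : ℕ} (hi : i ≤ N) {m : E (N + 1)} (hm : m ∈ KK N i) (hpos : 0 < BB i m m)
    {z : E (N + 1)} (hz : z ∈ KK N i) : ∃ ε : ℝ, ε > 0 ∧ m + ε • (m - z) ∈ KK N i := by
  have hc := co_pos hi
  have hH := hh_pos N i
  have hlast : m (Fin.last N) < 0 := by
    refine lt_of_le_of_ne hm.2.1 fun h => ?_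
    unfold BB at hpos
    rw [h] at hpos
    have := bil_nonneg i m
    simp only [add_zero, mul_zero, zero_sub] at hpos
    linarith
  apply exists_pos_of_eventually
  have e1 : ∀ᶠ s in 𝓝 (0 : ℝ), 0 < BB i (m + s • (m - z)) (m + s • (m - z)) := by
    refine continuousAt_const.eventually_lt (continuous_BB i m (m - z)).continuousAt ?_
    simpa using hpos
  have e2 : ∀ᶠ s in 𝓝 (0 : ℝ), (m + s • (m - z)) (Fin.last N) < 0 := by
    refine (continuous_coord (Fin.last N) m (m - z)).continuousAt.eventually_lt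
      continuousAt_const ?_
    simpa using hlast
  filter_upwards [e1, e2] with s h1 h2
  refine ⟨fun k hk => ?_, h2.le, h1.le⟩
  simp [hm.1 k hk, hz.1 k hk]

lemma BB_mid (i : ℕ) (y z : E (N + 1)) :
    BB i ((1 / 2 : ℝ) • y + (1 / 2 : ℝ) • z) ((1 / 2 : ℝ) • y + (1 / 2 : ℝ) • z)
      = (BB i y y + BB i z z + 2 * BB i y z) / 4 := by
  have h := bil_sub_self i y z
  have h2 := bil_mid i y z
  have h3 : bil i (y - z) (y - z) = bil i (z - y) (z - y) := by
    unfold bil
    refine Finset.sum_congr rfl fun k _ => ?_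
    split_ifs
    · simp only [PiLp.sub_apply]; ring
    · rfl
  unfold BB
  rw [h2, h3, h]
  simp only [PiLp.add_apply, PiLp.smul_apply, smul_eq_mul]
  ring

/-- exposing vector for the polar -/
noncomputable def expo2 (i : ℕ) (y : E (N + 1)) : E (N + 1) :=
  mk (fun k : Fin N => if i ≤ (k : ℕ) then y k.castSucc else 0)
    (2 * co N i - 4 * co N i * hh N i * y (Fin.last N))

lemma inner_expo2 (i : ℕ) (y z : E (N + 1)) :
    inner ℝ (expo2 i y) z = - (2 * co N i) * y (Fin.last N) - BB i y z := by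
  unfold expo2
  rw [inner_mk]
  have : (∑ k : Fin N, (if i ≤ (k : ℕ) then y k.castSucc else 0) * z k.castSucc) = bil i y z := by
    unfold bil
    refine Finset.sum_congr rfl fun k _ => ?_
    split_ifs
    · rfl
    · ring
  rw [this]
  unfold BB
  ring

theorem KK_faciallyExposed {i : ℕ} (hi : i ≤ N) : FaciallyExposed (KK N i) := by
  intro F hF hne hprop
  have hc := co_pos hi
  have hH := hh_pos N i
  have hnotpos : ∀ m ∈ F, ¬ 0 < BB i m m := by
    intro m hm hpos
    apply hprop
    refine Set.Subset.antisymm hF.2.1 fun z hz => ?_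
    obtain ⟨ε, hε, hZ⟩ := KK_relint hi (hF.2.1 hm) hpos hz
    exact mem_face_of_extend hF hm hz hε hZ
  obtain ⟨y0, hy0⟩ := hne
  have hK0 := hF.2.1 hy0
  have hQ0 : BB i y0 y0 = 0 := le_antisymm (not_lt.mp (hnotpos y0 hy0)) hK0.2.2
  have hF' : ∀ z ∈ F, z = y0 := by
    intro z hz
    by_contra hne'
    have hKz := hF.2.1 hz
    have hm : (1 / 2 : ℝ) • y0 + (1 / 2 : ℝ) • z ∈ F :=
      hF.1 hy0 hz (by norm_num) (by norm_num) (by norm_num)
    apply hnotpos _ hm
    rw [BB_mid]
    obtain ⟨h1, h2⟩ := BB_pos hi hK0 hKz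
    have h3 : 0 < BB i y0 z := lt_of_le_of_ne h1 fun h => hne' (h2 h.symm).symm
    have h4 := hKz.2.2
    rw [hQ0]
    linarith
  refine ⟨expo2 i y0, - (2 * co N i) * y0 (Fin.last N), ?_, ?_, ?_⟩
  · intro h
    have h1 : expo2 i y0 (Fin.last N) = 2 * co N i - 4 * co N i * hh N i * y0 (Fin.last N) := by
      simp [expo2]
    rw [h] at h1
    have h2 : 0 ≤ co N i * hh N i * (- y0 (Fin.last N)) :=
      mul_nonneg (by positivity) (by linarith [hK0.2.1])
    simp only [PiLp.zero_apply] at h1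
    linarith
  · intro z hz
    rw [inner_expo2]
    have := (BB_pos hi hK0 hz).1
    linarith
  · ext z
    constructor
    · intro hz
      rw [hF' z hz]
      exact ⟨hK0, by rw [inner_expo2, hQ0, sub_zero]⟩
    · rintro ⟨hz, hz'⟩
      rw [inner_expo2] at hz'
      have h1 : BB i y0 z = 0 := by linarith
      rw [← (BB_pos hi hK0 hz).2 h1]
      exact hy0

theorem polar_faciallyExposed {i0 : ℕ} (hi : i0 ∈ J) (hJ : ∀ i ∈ J, i0 ≤ i ∧ i ≤ N) :
    FaciallyExposed (polarSet (body N J)) := by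
  have h : polarSet (body N J) = KK N i0 :=
    Set.Subset.antisymm (polar_subset_KK hJ (hJ i0 hi).2)
      (KK_subset_polar hi fun i hi => (hJ i hi).2)
  rw [h]
  exact KK_faciallyExposed (hJ i0 hi).2

end Pool.Agent.R788.FE
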