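import Pool.Agent.R788.FE.Faces

/-!
The signature of the body.
-/

open scoped BigOperators Topology

namespace Pool.Agent.R788.FE

variable {N : ℕ} {J : Finset ℕ}

lemma isFace_self {n : ℕ} {C : Set (E n)} (hC : Convex ℝ C) : IsFace C C :=
  ⟨hC, subset_rfl, fun _ hx _ hy _ => ⟨hx, hy⟩⟩

lemma IsExposedFace.isFace {n : ℕ} {C F : Set (E n)} (hC : Convex ℝ C) (h : IsExposedFace C F) :
    IsFace C F := by
  obtain ⟨c, b, _, hle, rfl⟩ := h
  refine ⟨?_, fun x hx => hx.1, ?_⟩
  · rintro x ⟨hx, hx'⟩ y ⟨hy, hy'⟩ α β hα hβ hαβ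
    refine ⟨hC hx hy hα hβ hαβ, ?_⟩
    rw [inner_add_right, inner_smul_right, inner_smul_right, hx', hy', ← add_mul, hαβ, one_mul]
  · rintro x hx y hy ⟨z, ⟨α, β, hα, hβ, hαβ, rfl⟩, hz⟩
    have h1 : α * inner ℝ c x + β * inner ℝ c y = b := by
      have := hz.2
      rw [inner_add_right, inner_smul_right, inner_smul_right] at this
      exact this
    have h2 := hle x hx
    have h3 := hle y hy
    have h4 : α * (b - inner ℝ c x) + β * (b - inner ℝ c y) = 0 := by
      have : α * b + β * b = b := by rw [← add_mul, hαβ, one_mul]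
      linarith
    have h5 : 0 ≤ α * (b - inner ℝ c x) := mul_nonneg hα.le (by linarith)
    have h6 : 0 ≤ β * (b - inner ℝ c y) := mul_nonneg hβ.le (by linarith)
    have h7 : α * (b - inner ℝ c x) = 0 := by linarith
    have h8 : β * (b - inner ℝ c y) = 0 := by linarith
    rcases mul_eq_zero.mp h7 with h | h
    · exact absurd h hα.ne'
    rcases mul_eq_zero.mp h8 with h' | h'
    · exact absurd h' hβ.ne'
    exact ⟨⟨hx, by linarith⟩, ⟨hy, by linarith⟩⟩

lemma bil_comb (i : ℕ) (X Y : E (N + 1)) {α β : ℝ} (h : α + β = 1) :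
    bil i (α • X + β • Y) (α • X + β • Y)
      = α * bil i X X + β * bil i Y Y - α * β * bil i (X - Y) (X - Y) := by
  unfold bil
  rw [Finset.mul_sum, Finset.mul_sum, Finset.mul_sum, ← Finset.sum_add_distrib,
    ← Finset.sum_sub_distrib]
  refine Finset.sum_congr rfl fun k _ => ?_
  split_ifs
  · simp only [PiLp.add_apply, PiLp.smul_apply, PiLp.sub_apply, smul_eq_mul]
    have hb : β = 1 - α := by linarith
    subst hb
    ring
  · ring

lemma body_convex (hJ : ∀ i ∈ J, i ≤ N) : Convex ℝ (body N J) := by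
  intro X hX Y hY α β hα hβ hαβ i hi
  have h1 := hX i hi
  have h2 := hY i hi
  have hc := co_pos (hJ i hi)
  have h3 : ff i (α • X + β • Y) = α * ff i X + β * ff i Y
      - co N i * (α * β * bil i (X - Y) (X - Y)) := by
    unfold ff
    rw [bil_comb i X Y hαβ]
    have hb : β = 1 - α := by linarith
    subst hb
    ring
  have h4 : 0 ≤ co N i * (α * β * bil i (X - Y) (X - Y)) :=
    mul_nonneg hc.le (mul_nonneg (mul_nonneg hα hβ) (bil_nonneg i _))
  rw [h3]
  simp only [PiLp.add_apply, PiLp.smul_apply, smul_eq_mul]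
  nlinarith [mul_le_mul_of_nonneg_left h1 hα, mul_le_mul_of_nonneg_left h2 hβ]

lemma FX_top (X : E (N + 1)) : FX J X (N + 1) = body N J := by
  ext Y
  refine ⟨fun h => h.1, fun h => ⟨h, fun l hl => ?_⟩⟩
  have := l.2
  omega

lemma FX_isFace (hJ : ∀ i ∈ J, i ≤ N) {X : E (N + 1)} {j : ℕ} (hl : Lev J X j) :
    IsFace (body N J) (FX J X j) := by
  rcases hl.1 with ⟨h1, h2⟩ | h
  · exact (FX_exposed hJ h1 h2).isFace (body_convex hJ)
  · subst h
    rw [FX_top]
    exact isFace_self (body_convex hJ)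

/-- the direction space -/
def Wsp (N j : ℕ) : Submodule ℝ (E (N + 1)) where
  carrier := {v | ∀ l : Fin (N + 1), j ≤ (l : ℕ) → v l = 0}
  add_mem' := by
    intro a b ha hb l hl
    simp [ha l hl, hb l hl]
  zero_mem' := by
    intro l _
    simp
  smul_mem' := by
    intro c a ha l hl
    simp [ha l hl]

lemma mem_Wsp {j : ℕ} {v : E (N + 1)} :
    v ∈ Wsp N j ↔ ∀ l : Fin (N + 1), j ≤ (l : ℕ) → v l = 0 := Iff.rfl

/-- coordinates on the direction space -/
noncomputable def WspEquiv (N j : ℕ) (hj : j ≤ N + 1) : Wsp N j ≃ₗ[ℝ] (Fin j → ℝ) where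
  toFun v l := (v : E (N + 1)) (Fin.castLE hj l)
  map_add' u v := by ext l; simp
  map_smul' c v := by ext l; simp
  invFun u := ⟨WithLp.toLp 2 fun l : Fin (N + 1) => if h : (l : ℕ) < j then u ⟨l, h⟩ else 0, by
    intro l hl
    simp [Nat.not_lt.mpr hl]⟩
  left_inv v := by
    ext l
    by_cases h : (l : ℕ) < j
    · simp [h]
    · simp only [h, dif_neg, not_false_iff]
      exact (v.2 l (not_lt.mp h)).symm
  right_inv u := by
    ext l
    simp

lemma finrank_Wsp (j : ℕ) (hj : j ≤ N + 1) : Module.finrank ℝ (Wsp N j) = j := by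
  rw [(WspEquiv N j hj).finrank_eq, Module.finrank_fin_fun]

lemma vectorSpan_FX (hJ : ∀ i ∈ J, i ≤ N) {X : E (N + 1)} (hX : X ∈ body N J) {j : ℕ}
    (hl : Lev J X j) : vectorSpan ℝ (FX J X j) = Wsp N j := by
  apply le_antisymm
  · rw [vectorSpan_def, Submodule.span_le]
    rintro _ ⟨Y, hY, Z, hZ, rfl⟩
    intro l hl'
    simp [hY.2 l hl', hZ.2 l hl']
  · intro v hv
    obtain ⟨ε, hε, hZ⟩ := exists_pos_of_eventually (perturb hJ hX hl v hv)
    have h1 : X + ε • v ∈ FX J X j := ⟨hZ, fun l hl' => by simp [hv l hl']⟩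
    have h2 : X ∈ FX J X j := ⟨hX, fun l _ => rfl⟩
    have h3 := vsub_mem_vectorSpan ℝ h1 h2
    have h4 : (X + ε • v) -ᵥ X = ε • v := by simp
    rw [h4] at h3
    have h5 := (vectorSpan ℝ (FX J X j)).smul_mem ε⁻¹ h3
    rwa [smul_smul, inv_mul_cancel₀ hε.ne', one_smul] at h5

lemma dim_FX (hJ : ∀ i ∈ J, i ≤ N) {X : E (N + 1)} (hX : X ∈ body N J) {j : ℕ}
    (hl : Lev J X j) : dimSet (FX J X j) = j := by
  unfold dimSet
  rw [vectorSpan_FX hJ hX hl, finrank_Wsp j (hl.le hJ)]

/-- test points -/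
noncomputable def pt (N i : ℕ) (t : ℝ) : E (N + 1) :=
  WithLp.toLp 2 (Fin.snoc (α := fun _ => ℝ) (fun k : Fin N => if (k : ℕ) = i then 1 else 0) t)

@[simp] lemma pt_last (i : ℕ) (t : ℝ) : pt N i t (Fin.last N) = t := by simp [pt]

@[simp] lemma pt_castSucc (i : ℕ) (t : ℝ) (k : Fin N) :
    pt N i t k.castSucc = if (k : ℕ) = i then 1 else 0 := by simp [pt]

lemma bil_pt (m i : ℕ) (t : ℝ) :
    bil m (pt N i t) (pt N i t) = if m ≤ i ∧ i < N then 1 else 0 := by
  unfold bil
  by_cases hi : i < N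
  · rw [Finset.sum_eq_single (⟨i, hi⟩ : Fin N)]
    · rw [pt_castSucc]
      simp [hi]
    · intro k _ hk
      have : (k : ℕ) ≠ i := fun h => hk (Fin.ext h)
      simp [this]
    · simp
  · have : ∀ k : Fin N, (k : ℕ) ≠ i := fun k => by have := k.2; omega
    simp [this, hi]

lemma exists_level (hJ : ∀ i ∈ J, i ≤ N) {i : ℕ} (hi : i ∈ J ∨ i = N + 1) :
    ∃ X ∈ body N J, Lev J X i := by
  have hN0 : (0 : ℝ) ≤ N := by positivity
  rcases hi with hi | hi
  · have hiN := hJ i hi
    rcases lt_or_eq_of_le hiN with hlt | heq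
    · -- i < N
      have hval : ∀ m, m ≤ i → ff m (pt N i (6 * ((N : ℝ) + 1) + i)) = 6 * ((N : ℝ) + 1) + m := by
        intro m hm
        unfold ff co
        rw [bil_pt, if_pos ⟨hm, hlt⟩]
        ring
      have hval' : ∀ m, i < m → ff m (pt N i (6 * ((N : ℝ) + 1) + i)) = 2 * m + 4 * ((N : ℝ) + 1) := by
        intro m hm
        unfold ff co
        rw [bil_pt, if_neg (fun h => by omega)]
        ring
      refine ⟨pt N i (6 * ((N : ℝ) + 1) + i), ?_, Or.inl ⟨hi, ?_⟩, ?_⟩
      · intro m hm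
        rw [pt_last]
        by_cases hmi : m ≤ i
        · rw [hval m hmi]
          have : (m : ℝ) ≤ i := by exact_mod_cast hmi
          linarith
        · rw [hval' m (by omega)]
          have h1 : (m : ℝ) ≤ N := by exact_mod_cast hJ m hm
          have h2 : (0 : ℝ) ≤ i := by positivity
          linarith
      · rw [hval i le_rfl, pt_last]
      · intro m hm hmi
        rw [hval m hmi.le, pt_last]
        have : (m : ℝ) < i := by exact_mod_cast hmi
        intro h
        linarith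
    · have hval : ∀ m, ff m (pt N N (2 * N + 4 * ((N : ℝ) + 1))) = 2 * m + 4 * ((N : ℝ) + 1) := by
        intro m
        unfold ff co
        rw [bil_pt, if_neg (fun h => by omega)]
        ring
      subst heq
      refine ⟨pt i i (2 * i + 4 * ((i : ℝ) + 1)), ?_, Or.inl ⟨hi, ?_⟩, ?_⟩
      · intro m hm
        rw [pt_last, hval]
        have : (m : ℝ) ≤ i := by exact_mod_cast hJ m hm
        linarith
      · rw [pt_last, hval]
      · intro m hm hmi
        rw [hval, pt_last]
        have : (m : ℝ) < i := by exact_mod_cast hmi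
        intro h
        linarith
  · have hval : ∀ m, ff m (pt N N (2 * N + 4 * ((N : ℝ) + 1) + 1)) = 2 * m + 4 * ((N : ℝ) + 1) := by
      intro m
      unfold ff co
      rw [bil_pt, if_neg (fun h => by omega)]
      ring
    refine ⟨pt N N (2 * N + 4 * ((N : ℝ) + 1) + 1), ?_, Or.inr hi, ?_⟩
    · intro m hm
      rw [pt_last, hval]
      have : (m : ℝ) ≤ N := by exact_mod_cast hJ m hm
      linarith
    · intro m hm _
      rw [hval, pt_last]
      have : (m : ℝ) ≤ N := by exact_mod_cast hJ m hm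
      intro h
      linarith

theorem signature_body (hJ : ∀ i ∈ J, i ≤ N) :
    signature (body N J) = {i | i ∈ J ∨ i = N + 1} := by
  ext i
  constructor
  · rintro ⟨F, hF, hne, rfl⟩
    obtain ⟨X, hX, j, hj, rfl⟩ := face_eq_FX hJ hF hne
    rw [dim_FX hJ (hF.2.1 hX) hj]
    rcases hj.1 with h | h
    · exact Or.inl h.1
    · exact Or.inr h
  · intro hi
    obtain ⟨X, hX, hl⟩ := exists_level hJ hi
    exact ⟨FX J X i, FX_isFace hJ hl, ⟨X, hX, fun _ _ => rfl⟩, dim_FX hJ hX hl⟩

theorem body_faciallyExposed (hJ : ∀ i ∈ J, i ≤ N) : FaciallyExposed (body N J) := by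
  intro F hF hne hprop
  obtain ⟨X, hX, j, hj, rfl⟩ := face_eq_FX hJ hF hne
  rcases hj.1 with h | h
  · exact FX_exposed hJ h.1 h.2
  · subst h
    exact absurd (FX_top X) hprop

end Pool.Agent.R788.FE
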